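import Pool.Agent.Helper16_Fine.Defs

/-!
Squad AEU, Part II: geometry. Almost every convex `n`-gon is determined by its Dirichlet spectrum
among convex polygons with at most `n` sides.

* a convex polygon is a finite set of half-planes `s = (u, H)`, that is `ip u x ≤ H`, `‖u‖ = 1`;
* a body (nonempty compact convex set) is given by its support function `h : ℂ → ℝ`, a sublinear
  function (`H16F.Sublin`);
* isometries are elements of `ℂ ≃ᵃⁱ[ℝ] ℂ`.
-/

namespace Pool.Agent.AEU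

open MeasureTheory Complex Filter Topology Pool.Agent.H62T
open Pool.Agent.H16F (Sublin)

/-- half-planes `ip s.1 x ≤ s.2` -/
abbrev HP : Type := ℂ × ℝ

/-- isometries of the plane -/
abbrev Iso2 : Type := ℂ ≃ᵃⁱ[ℝ] ℂ

/-- image of a half-plane under an isometry -/
noncomputable def mv (g : Iso2) (s : HP) : HP :=
  (g.linearIsometryEquiv s.1, s.2 + ip (g.linearIsometryEquiv s.1) (g 0))

/-- image of a body (given by its support function) under an isometry -/
noncomputable def mb (g : Iso2) (h : ℂ → ℝ) (w : ℂ) : ℝ :=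
  h (g.linearIsometryEquiv.symm w) + ip w (g 0)

/-- perimeter of the body with support function `h` -/
noncomputable def lam (h : ℂ → ℝ) : ℝ :=
  ∫ θ in (0 : ℝ)..(2 * Real.pi), h (Complex.exp (θ * I))

/-- the point `x` belongs to the body -/
def In (x : ℂ) (h : ℂ → ℝ) : Prop := ∀ w, ip w x ≤ h w

/-- support function of the convex hull of finitely many points -/
noncomputable def hf {ι : Type} (x : ι → ℂ) (w : ℂ) : ℝ := ⨆ i, ip w (x i)

/-- Minkowski combination of two bodies -/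
noncomputable def mix (τ : ℝ) (h₀ h₁ : ℂ → ℝ) (w : ℂ) : ℝ := (1 - τ) * h₀ w + τ * h₁ w

/-! ### Polygons -/

/-- the body `h` is contained in the (closed) polygon -/
def Fits (P : Finset HP) (h : ℂ → ℝ) : Prop := ∀ s ∈ P, h s.1 ≤ s.2

/-- the sides which are touched by the body `h` -/
noncomputable def touch (P : Finset HP) (h : ℂ → ℝ) : Finset HP := P.filter fun s => h s.1 = s.2

/-- the closed polygon -/
def Cl (P : Finset HP) : Set ℂ := {x | ∀ s ∈ P, ip s.1 x ≤ s.2}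

/-- `P` is the set of the sides of a convex polygon -/
structure Pg (P : Finset HP) : Prop where
  unit : ∀ s ∈ P, ‖s.1‖ = 1
  side : ∀ s ∈ P, ∃ x, ip s.1 x = s.2 ∧ ∀ t ∈ P, t ≠ s → ip t.1 x < t.2
  bdd : Bornology.IsBounded (Cl P)
  card : 3 ≤ P.card

/-- `v` is the vertex of `P` at which the sides `s`, `t` meet -/
structure VxOf (P : Finset HP) (s t : HP) (v : ℂ) : Prop where
  cl : v ∈ Cl P
  mem₁ : s ∈ P
  mem₂ : t ∈ P
  ne : s ≠ t
  on₁ : ip s.1 v = s.2
  on₂ : ip t.1 v = t.2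

/-- `v` is a vertex of `P` -/
def Vx (P : Finset HP) (v : ℂ) : Prop := ∃ s t, VxOf P s t v

/-! ### Genericity -/

/-- intersection point of the boundary lines of two half-planes -/
noncomputable def vx (s t : HP) : ℂ :=
  I * ((t.2 : ℂ) * s.1 - (s.2 : ℂ) * t.1) / (dt s.1 t.1 : ℂ)

/-- twice the length of the segment of the line `j` between the lines `i` and `k` -/
noncomputable def eA (i j k : HP) : ℝ := 2 * ‖vx i j - vx j k‖

/-- twice the distance from the intersection point of the lines `i` and `j` to the line `q` -/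
noncomputable def eB (i j q : HP) : ℝ := 2 * |q.2 - ip q.1 (vx i j)|

/-- length of the orthic triangle of an acute triple of half-planes -/
noncomputable def ell3 (s t r : HP) : ℝ :=
  2 * (|dt t.1 r.1| * s.2 + |dt r.1 s.1| * t.2 + |dt s.1 t.1| * r.2)

/-- three different elements of `P` -/
def Tri (P : Finset HP) (a b c : HP) : Prop :=
  a ∈ P ∧ b ∈ P ∧ c ∈ P ∧ a ≠ b ∧ a ≠ c ∧ b ≠ c

/-- genericity of the normals -/
structure G1 (P : Finset HP) : Prop where
  ne0 : ∀ s ∈ P, ∀ t ∈ P, s ≠ t → ip s.1 t.1 ≠ 0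
  lt1 : ∀ s ∈ P, ∀ t ∈ P, s ≠ t → |ip s.1 t.1| < 1
  inj : ∀ s ∈ P, ∀ t ∈ P, ∀ s' ∈ P, ∀ t' ∈ P, s ≠ t → s' ≠ t' →
    |ip s.1 t.1| = |ip s'.1 t'.1| → (s = s' ∧ t = t') ∨ (s = t' ∧ t = s')
  tri : ∀ i j k, Tri P i j k → |dt i.1 k.1| ≠ |dt i.1 j.1| * |dt j.1 k.1|
  four : ∀ a ∈ P, ∀ b ∈ P, ∀ c ∈ P, ∀ d ∈ P, a ≠ b → a ≠ c → a ≠ d → b ≠ c → b ≠ d → c ≠ d →
    a.1 * c.1 ≠ b.1 * d.1 ∧ a.1 * c.1 ≠ -(b.1 * d.1)

/-- genericity of the support numbers: different critical lengths -/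
structure G2 (P : Finset HP) : Prop where
  aa : ∀ i j k i' j' k', Tri P i j k → Tri P i' j' k' → eA i j k = eA i' j' k' →
    j = j' ∧ ((i = i' ∧ k = k') ∨ (i = k' ∧ k = i'))
  bb : ∀ i j q i' j' q', Tri P i j q → Tri P i' j' q' → eB i j q = eB i' j' q' →
    q = q' ∧ ((i = i' ∧ j = j') ∨ (i = j' ∧ j = i'))
  ab : ∀ i j k i' j' q', Tri P i j k → Tri P i' j' q' → eA i j k ≠ eB i' j' q'
  ss : ∀ a b c a' b' c', Tri P a b c → Tri P a' b' c' → ell3 a b c = ell3 a' b' c' →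
    ∀ s, (s = a ∨ s = b ∨ s = c) ↔ (s = a' ∨ s = b' ∨ s = c')
  sa : ∀ a b c i j k, Tri P a b c → Tri P i j k → ell3 a b c ≠ eA i j k
  sb : ∀ a b c i j q, Tri P a b c → Tri P i j q → ell3 a b c ≠ eB i j q
  flip : ∀ i j q r a b c, Tri P i j q → Tri P i j r → q ≠ r → Tri P a b c →
    ∀ f : Iso2, mv f i = j → mv f j = i → ell3 i q (mv f r) ≠ ell3 a b c

/-- generic convex polygons -/
structure Gen (P : Finset HP) : Prop where
  pg : Pg P
  g1 : G1 P
  g2 : G2 P

/-! ### Special bodies, matching, ghosts -/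

/-- special bodies -/
structure Special (P : Finset HP) (h : ℂ → ℝ) : Prop where
  sub : Sublin h
  fits : Fits P h
  three : 3 ≤ (touch P h).card
  sp : (∃ v, Vx P v ∧ In v h) ∨ 4 ≤ (touch P h).card

/-- the isometry `g` matches the body `h`: near the body, the polygons `P` and `g⁻¹ Q` coincide -/
structure Mat (P Q : Finset HP) (g : Iso2) (h : ℂ → ℝ) : Prop where
  fits : Fits P h
  fits' : Fits Q (mb g h)
  mem : ∀ s ∈ touch P h, mv g s ∈ Q
  mem' : ∀ s ∈ touch Q (mb g h), mv g⁻¹ s ∈ P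

/-- an unmatched special body of `P` -/
def Unm (P Q : Finset HP) (h : ℂ → ℝ) : Prop := Special P h ∧ ¬ ∃ g, Mat P Q g h

/-- all special bodies of `P` which are shorter than `L` are matched -/
def AllM (P Q : Finset HP) (L : ℝ) : Prop := ∀ h, Special P h → lam h < L → ∃ g, Mat P Q g h

/-- `h` is a shortest unmatched special body of `P` or `Q`, it is one for `P`, and it touches as
many sides as possible -/
structure Crit (P Q : Finset HP) (L : ℝ) (h : ℂ → ℝ) : Prop where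
  all : AllM P Q L
  all' : AllM Q P L
  unm : Unm P Q h
  lam : lam h = L
  max : ∀ h', Unm P Q h' → AEU.lam h' = L → (touch P h').card ≤ (touch P h).card
  max' : ∀ h', Unm Q P h' → AEU.lam h' = L → (touch Q h').card ≤ (touch P h).card

/-- all special bodies of length at most `L` are matched, or touch three sides only and cannot be
moved into `Q` in such a way that these sides become sides of `Q` -/
def Ok (P Q : Finset HP) (L : ℝ) : Prop := ∀ h, Special P h → lam h ≤ L →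
  (∃ g, Mat P Q g h) ∨
    ((touch P h).card = 3 ∧ ¬ ∃ g, Fits Q (mb g h) ∧ ∀ s ∈ touch P h, mv g s ∈ Q)

/-- the triple `S` of sides is a ghost: it is touched by a body which is shorter than all special
bodies touching `S` -/
def Ghost (P S : Finset HP) : Prop :=
  S ⊆ P ∧ S.card = 3 ∧ ∃ h, Sublin h ∧ Fits P h ∧ S ⊆ touch P h ∧
    ∀ h', Special P h' → S ⊆ touch P h' → lam h < lam h'

/-- the triple `S` is touched by a matched special body of length at most `L` -/
def MTouch (P Q : Finset HP) (L : ℝ) (S : Finset HP) : Prop :=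
  ∃ g h, Special P h ∧ Mat P Q g h ∧ lam h ≤ L ∧ S ⊆ touch P h

/-- the triple `S` is touched by a fitting body of length at most `L`, but not by a matched special
body of length at most `L` -/
def NTouch (P Q : Finset HP) (L : ℝ) (S : Finset HP) : Prop :=
  (∃ h, Sublin h ∧ Fits P h ∧ lam h ≤ L ∧ S ⊆ touch P h) ∧ ¬ MTouch P Q L S

/-- length of the orthic triangle of the triple `S` (`ell3 s t r` if `S = {s, t, r}`) -/
noncomputable def ell (S : Finset HP) : ℝ :=
  ∑ s ∈ S, s.2 * ∑ t ∈ S.erase s, ∑ r ∈ S.erase s, |dt t.1 r.1|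

/-- the three half-planes form an acute triangle -/
def Acute (S : Finset HP) : Prop := ∀ s ∈ S, ∀ t ∈ S, s ≠ t → ip s.1 t.1 < 0

/-- every ghost of `P` of length less than `L` has a partner in `Q` -/
def GhP (P Q : Finset HP) (L : ℝ) : Prop :=
  ∀ S, Ghost P S → ell S < L → ∃ S', Ghost Q S' ∧ ell S' = ell S

/-! ### Critical bodies -/

/-- type A: a side with two obtuse angles -/
structure TypeA (P : Finset HP) (h : ℂ → ℝ) (i j k : HP) (v w : ℂ) : Prop where
  vi : VxOf P i j v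
  wk : VxOf P j k w
  ne : i ≠ k
  obt : 0 < ip i.1 j.1
  obt' : 0 < ip j.1 k.1
  body : h = hf ![v, w]

/-- type B: the segment from a vertex to its foot on a side -/
structure TypeB (P : Finset HP) (h : ℂ → ℝ) (i j q : HP) (v : ℂ) (d : ℝ) : Prop where
  vi : VxOf P i j v
  qP : q ∈ P
  pos : 0 < d
  foot : ip q.1 (v + (d : ℂ) * q.1) = q.2
  inner : ∀ s ∈ P, s ≠ q → ip s.1 (v + (d : ℂ) * q.1) < s.2
  body : h = hf ![v, v + (d : ℂ) * q.1]

/-- type E: a vertex and points on two other sides, with two different isometries -/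
structure TypeE (P Q : Finset HP) (h : ℂ → ℝ) (i j q r : HP) (v x y : ℂ) (g g' : Iso2) :
    Prop where
  vi : VxOf P i j v
  qP : q ∈ P
  rP : r ∈ P
  ne : q ≠ r
  qi : q ≠ i
  qj : q ≠ j
  ri : r ≠ i
  rj : r ≠ j
  xq : ip q.1 x = q.2
  yr : ip r.1 y = r.2
  xs : ∀ s ∈ P, s ≠ q → ip s.1 x < s.2
  ys : ∀ s ∈ P, s ≠ r → ip s.1 y < s.2
  body : h = hf ![v, x, y]
  fits : Fits Q (mb g h)
  gi : mv g i ∈ Q
  gj : mv g j ∈ Q
  gq : mv g q ∈ Q
  fits' : Fits Q (mb g' h)
  gi' : mv g' i ∈ Q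
  gj' : mv g' j ∈ Q
  gr' : mv g' r ∈ Q
  gne : g ≠ g'

/-! ### Events -/

/-- the event: a scaled and translated copy of the body `h`, with factor at most one, touches
exactly the sides in `S` -/
def Ev (P S : Finset HP) (h : ℂ → ℝ) : Prop :=
  ∃ (σ : ℝ) (x : ℂ), 0 < σ ∧ σ ≤ 1 ∧ Fits P (fun w => σ * h w + ip w x) ∧
    touch P (fun w => σ * h w + ip w x) = S

/-- the same event with the three lines only -/
def EvL (S : Finset HP) (h : ℂ → ℝ) : Prop :=
  ∃ (σ : ℝ) (x : ℂ), 0 < σ ∧ σ ≤ 1 ∧ ∀ s ∈ S, σ * h s.1 + ip s.1 x = s.2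

/-! ### Output for the analysis -/

/-- the sides of the polygon `ip (u i) x ≤ H i` -/
noncomputable def sides {n : ℕ} (u : Fin n → ℂ) (H : Fin n → ℝ) : Finset HP :=
  Finset.univ.image fun i => (u i, H i)

/-- shape of the triple of type A: `c`, `c'` are the cosines of the exterior angles at the ends of
the side `j`, whose length is `L / 2` -/
structure IsA (i j k : HP) (L c c' : ℝ) : Prop where
  ui : ‖i.1‖ = 1
  uj : ‖j.1‖ = 1
  uk : ‖k.1‖ = 1
  ij : ip i.1 j.1 = c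
  jk : ip j.1 k.1 = c'
  pos : 0 < c
  pos' : 0 < c'
  lt : c < 1
  lt' : c' < 1
  or : 0 < dt i.1 j.1 * dt j.1 k.1
  len : eA i j k = L
  in₁ : ip k.1 (vx i j) < k.2
  in₂ : ip i.1 (vx j k) < i.2

/-- shape of the triple of type B: the vertex `vx i j` has distance `L / 2` from the line `q` -/
structure IsB (i j q : HP) (L c a b : ℝ) : Prop where
  ui : ‖i.1‖ = 1
  uj : ‖j.1‖ = 1
  uq : ‖q.1‖ = 1
  ij : ip i.1 j.1 = c
  iq : ip i.1 q.1 = a
  jq : ip j.1 q.1 = b
  lt : |c| < 1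
  lta : -1 < a
  ltb : -1 < b
  nega : a < 0
  negb : b < 0
  len : q.2 - ip q.1 (vx i j) = L / 2

/-- the new item at the level `L` -/
inductive Item
  | none : Item
  | gh : Item
  | A (c c' : ℝ) : Item
  | B (c a b : ℝ) : Item

/-- an acute triple with orthic length below `L` and altitudes above `L / 2` -/
structure Old (S : Finset HP) (L : ℝ) : Prop where
  card : S.card = 3
  unit : ∀ s ∈ S, ‖s.1‖ = 1
  acute : Acute S
  lt : ell S < L
  pos : 0 < ell S
  alt : ∀ i j q, S = {i, j, q} → L / 2 < q.2 - ip q.1 (vx i j)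

/-- the triples in `N` are old ghosts, except for the new item -/
def HasItem (N : Finset (Finset HP)) (L : ℝ) : Item → Prop
  | Item.none => ∀ S ∈ N, Old S L
  | Item.gh => ∃ S₀ ∈ N, (∀ S ∈ N, S ≠ S₀ → Old S L) ∧ S₀.card = 3 ∧ (∀ s ∈ S₀, ‖s.1‖ = 1) ∧
      Acute S₀ ∧ ell S₀ = L ∧ ∀ i j q, S₀ = {i, j, q} → L / 2 < q.2 - ip q.1 (vx i j)
  | Item.A c c' => ∃ S₀ ∈ N, (∀ S ∈ N, S ≠ S₀ → Old S L) ∧
      ∃ i j k, S₀ = {i, j, k} ∧ S₀.card = 3 ∧ IsA i j k L c c'
  | Item.B c a b => ∃ S₀ ∈ N, (∀ S ∈ N, S ≠ S₀ → Old S L) ∧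
      ∃ i j q, S₀ = {i, j, q} ∧ S₀.card = 3 ∧ IsB i j q L c a b ∧
        (0 < c ∨ (Acute S₀ ∧ 0 < ell S₀ ∧ ell S₀ < L ∧ b < c ∧ a < c))

/-- the items are different -/
def ItemNe : Item → Item → Prop
  | Item.none, Item.none => False
  | Item.gh, Item.gh => False
  | Item.A c c', Item.A d d' => ¬ ((c = d ∧ c' = d') ∨ (c = d' ∧ c' = d))
  | Item.B c a b, Item.B c' a' b' => ¬ (c = c' ∧ ((a = a' ∧ b = b') ∨ (a = b' ∧ b = a')))
  | _, _ => True

/-- the old ghosts in `N` -/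
def OldSet (N : Finset (Finset HP)) (L : ℝ) : Set ℝ :=
  {l | ∃ S ∈ N, Acute S ∧ ell S < L ∧ ell S = l}

/-- the splitting of the triples of sides of `P` and `Q` at the level `L` -/
structure Split (P Q : Finset HP) (L δ : ℝ) (M N N' : Finset (Finset HP))
    (γ : Finset HP → Iso2) (it it' : Item) : Prop where
  L0 : 0 < L
  δ0 : 0 < δ
  MP : M ⊆ P.powersetCard 3
  NP : N ⊆ P.powersetCard 3
  NQ : N' ⊆ Q.powersetCard 3
  disj : Disjoint M N
  MQ : ∀ S ∈ M, S.image (mv (γ S)) ⊆ Q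
  inj : ∀ S ∈ M, ∀ T ∈ M, S.image (mv (γ S)) = T.image (mv (γ T)) → S = T
  disj' : ∀ S ∈ M, S.image (mv (γ S)) ∉ N'
  mat : ∀ S ∈ M, ∀ h, Sublin h → lam h < L + δ →
    (Ev P S h ↔ Ev Q (S.image (mv (γ S))) (mb (γ S) h))
  loc : ∀ S ∈ N, ∀ h, Sublin h → lam h < L + δ → (Ev P S h ↔ EvL S h)
  loc' : ∀ S ∈ N', ∀ h, Sublin h → lam h < L + δ → (Ev Q S h ↔ EvL S h)
  out : ∀ S ∈ P.powersetCard 3, S ∉ M → S ∉ N → ∀ h, Sublin h → lam h < L + δ → ¬ Ev P S h
  out' : ∀ S ∈ Q.powersetCard 3, (∀ T ∈ M, T.image (mv (γ T)) ≠ S) → S ∉ N' →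
    ∀ h, Sublin h → lam h < L + δ → ¬ Ev Q S h
  item : HasItem N L it
  item' : HasItem N' L it'
  ne : ItemNe it it'
  old : OldSet N L = OldSet N' L
  injN : ∀ S ∈ N, ∀ T ∈ N, Acute S → Acute T → ell S = ell T → S = T
  injN' : ∀ S ∈ N', ∀ T ∈ N', Acute S → Acute T → ell S = ell T → S = T

end Pool.Agent.AEU
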