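import Pool.Agent.Helper25_AEU.Defs

/-!
Squad AEU, Part II: statements of the modules. Every module proves its statement, from the
statements it uses (given as hypotheses); the recipes are in the comments.
-/

namespace Pool.Agent.AEU

open MeasureTheory Complex Filter Topology Pool.Agent.H62T
open Pool.Agent.H16F (Sublin)

/-! ### Block T: tools -/

/-- SUP: support points (Hahn-Banach in the plane), continuity -/
def SupStatement : Prop := ∀ h : ℂ → ℝ, Sublin h →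
  h 0 = 0 ∧ Continuous h ∧ (∃ R, ∀ w, |h w| ≤ R * ‖w‖) ∧ ∀ w, ∃ x, In x h ∧ ip w x = h w

/-- LAM: the perimeter functional -/
def LamStatement : Prop :=
  (∀ h h' : ℂ → ℝ, Sublin h → Sublin h' → ∀ (a b : ℝ) (x : ℂ),
    lam (fun w => a * h w + b * h' w + ip w x) = a * lam h + b * lam h') ∧
  (∀ h h' : ℂ → ℝ, Sublin h → Sublin h' → (∀ w, h w ≤ h' w) →
    lam h ≤ lam h' ∧ (lam h' ≤ lam h → h = h')) ∧
  (∀ h : ℂ → ℝ, Sublin h → 0 ≤ lam h) ∧
  ∀ (g : Iso2) (h : ℂ → ℝ), Sublin h → lam (mb g h) = lam h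

/-- HUL: support functions of finite hulls -/
def HulStatement : Prop := ∀ (m : ℕ) (x : Fin (m + 1) → ℂ),
  Sublin (hf x) ∧ (∀ i, In (x i) (hf x)) ∧ (∀ w, ∃ i, hf x w = ip w (x i)) ∧
    (∀ h : ℂ → ℝ, (∀ i, In (x i) h) → ∀ w, hf x w ≤ h w) ∧
    (∀ (w : ℂ) (c : ℝ), hf x w ≤ c ↔ ∀ i, ip w (x i) ≤ c) ∧
    ∀ (w : ℂ) (c : ℝ), hf x w < c ↔ ∀ i, ip w (x i) < c

/-- PER: perimeters of hulls of at most four points. For four points with crossing diagonals use
`h_abcd + h_ac = h_abc + h_acd`; the width of a triangle is half the sum of the widths of its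
sides; `∫ |cos| = 4`. -/
def PerStatement : Prop :=
  (∀ a b : ℂ, lam (hf ![a, b]) = 2 * ‖a - b‖) ∧
  (∀ a b c : ℂ, lam (hf ![a, b, c]) = ‖a - b‖ + ‖b - c‖ + ‖c - a‖) ∧
  (∀ a b c d : ℂ, lam (hf ![a, b, c, d]) ≤ ‖a - b‖ + ‖b - c‖ + ‖c - d‖ + ‖d - a‖) ∧
  ∀ a b c d p : ℂ, p ∈ segment ℝ a c → p ∈ segment ℝ b d →
    lam (hf ![a, b, c, d]) = ‖a - b‖ + ‖b - c‖ + ‖c - d‖ + ‖d - a‖

/-- CNT: continuity in the points -/
def CntStatement : Prop := ∀ m : ℕ,
  (∀ w : ℂ, Continuous fun x : Fin (m + 1) → ℂ => hf x w) ∧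
    Continuous fun x : Fin (m + 1) → ℂ => lam (hf x)

/-- ACT: the action of isometries on half-planes and bodies -/
def ActStatement : Prop :=
  (∀ (g g' : Iso2) (s : HP), mv (g * g') s = mv g (mv g' s)) ∧ (∀ s : HP, mv 1 s = s) ∧
  (∀ (g g' : Iso2) (h : ℂ → ℝ), mb (g * g') h = mb g (mb g' h)) ∧
  (∀ h : ℂ → ℝ, mb 1 h = h) ∧
  (∀ (g : Iso2) (h : ℂ → ℝ) (s : HP), mb g h (mv g s).1 - (mv g s).2 = h s.1 - s.2) ∧
  (∀ (g : Iso2) (x : ℂ) (s : HP), ip (mv g s).1 (g x) - (mv g s).2 = ip s.1 x - s.2) ∧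
  (∀ (g : Iso2) (x : ℂ) (h : ℂ → ℝ), In (g x) (mb g h) ↔ In x h) ∧
  (∀ (g : Iso2) (s t : HP), ip (mv g s).1 (mv g t).1 = ip s.1 t.1) ∧
  (∀ (g : Iso2) (s t : HP), |dt (mv g s).1 (mv g t).1| = |dt s.1 t.1|) ∧
  (∀ (g : Iso2) (s : HP), ‖(mv g s).1‖ = ‖s.1‖) ∧
  (∀ (g : Iso2) (h : ℂ → ℝ), Sublin h → Sublin (mb g h)) ∧
  (∀ (g : Iso2) (τ : ℝ) (h h' : ℂ → ℝ), mb g (mix τ h h') = mix τ (mb g h) (mb g h')) ∧
  (∀ (g : Iso2) (m : ℕ) (x : Fin (m + 1) → ℂ), mb g (hf x) = hf fun i => g (x i)) ∧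
  ∀ (g : Iso2) (σ : ℝ) (h : ℂ → ℝ) (x : ℂ), mb g (fun w => σ * h w + ip w x)
    = fun w => σ * mb g h w + ip w (g x - (σ : ℂ) * g 0)

/-- UNI: isometries are determined by two half-planes with independent normals; G1 excludes
everything but the exchange of two half-planes; three half-planes determine the isometry -/
def UniStatement : Prop :=
  (∀ (g g' : Iso2) (s t : HP), ‖s.1‖ = 1 → ‖t.1‖ = 1 → |ip s.1 t.1| < 1 →
    mv g s = mv g' s → mv g t = mv g' t → g = g') ∧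
  ∀ P Q : Finset HP, Pg P → Pg Q → G1 P → G1 Q → ∀ g g' : Iso2,
    (∀ s ∈ P, ∀ t ∈ P, s ≠ t → mv g s ∈ Q → mv g t ∈ Q → mv g' s ∈ Q → mv g' t ∈ Q →
      g = g' ∨ (mv g s = mv g' t ∧ mv g t = mv g' s)) ∧
    ∀ S ⊆ P, 3 ≤ S.card → (∀ s ∈ S, mv g s ∈ Q) → (∀ s ∈ S, mv g' s ∈ Q) → g = g'

/-- K4: three isometries defined on the three triples which contain `a`. The pairs `{a, b}`,
`{a, c}`, `{a, d}` go to well defined pairs of `Q`; a triangle configuration would give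
`|ip b c| = |ip a d|`. -/
def K4Statement : Prop := ∀ P Q : Finset HP, Pg P → Pg Q → G1 P → G1 Q →
  ∀ (g g' g'' : Iso2) (a b c d : HP), a ∈ P → b ∈ P → c ∈ P → d ∈ P → a ≠ b → a ≠ c → a ≠ d →
    b ≠ c → b ≠ d → c ≠ d → mv g a ∈ Q → mv g b ∈ Q → mv g c ∈ Q →
    mv g' a ∈ Q → mv g' b ∈ Q → mv g' d ∈ Q → mv g'' a ∈ Q → mv g'' c ∈ Q → mv g'' d ∈ Q →
    g = g' ∧ g = g''

/-- VER: vertices. At most two sides pass through a vertex: for three normals with a linear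
dependence `α u + β v + γ w = 0` test with the side points. -/
def VerStatement : Prop := ∀ P : Finset HP, Pg P → G1 P →
  (∀ s t v, VxOf P s t v → ∀ r ∈ P, ip r.1 v = r.2 → r = s ∨ r = t) ∧
  (∀ s t v, VxOf P s t v → ∀ r ∈ P, r ≠ s → r ≠ t → ip r.1 v < r.2) ∧
  (∀ v, Vx P v → ∀ a ∈ Cl P, ∀ b ∈ Cl P, v ∈ openSegment ℝ a b → a = v ∧ b = v) ∧
  (∀ s t v w, VxOf P s t v → VxOf P s t w → v = w) ∧
  (∀ s t v, VxOf P s t v → v = vx s t ∧ VxOf P t s v) ∧
  (∀ x ∈ Cl P, ∀ s ∈ P, ip s.1 x = s.2 → ¬ Vx P x → ∀ t ∈ P, t ≠ s → ip t.1 x < t.2) ∧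
  (∀ h : ℂ → ℝ, Fits P h → ∀ x, In x h → x ∈ Cl P) ∧
  (∀ (s t : HP) (v : ℂ) (h : ℂ → ℝ), VxOf P s t v → Fits P h → In v h →
    s ∈ touch P h ∧ t ∈ touch P h) ∧
  IsCompact (Cl P)

/-- MIX: Minkowski combinations, and the sides touched by a finite hull -/
def MixStatement : Prop := ∀ P : Finset HP,
  (∀ h₀ h₁ : ℂ → ℝ, Sublin h₀ → Sublin h₁ → ∀ τ : ℝ, 0 ≤ τ → τ ≤ 1 →
    Sublin (mix τ h₀ h₁) ∧ lam (mix τ h₀ h₁) = (1 - τ) * lam h₀ + τ * lam h₁ ∧
    (∀ x, In x h₀ → In x h₁ → In x (mix τ h₀ h₁)) ∧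
    (Fits P h₀ → Fits P h₁ → Fits P (mix τ h₀ h₁) ∧
      touch P h₀ ∩ touch P h₁ ⊆ touch P (mix τ h₀ h₁) ∧
      (0 < τ → τ < 1 → touch P (mix τ h₀ h₁) = touch P h₀ ∩ touch P h₁))) ∧
  (∀ h₀ h₁ : ℂ → ℝ, mix 0 h₀ h₁ = h₀ ∧ mix 1 h₀ h₁ = h₁) ∧
  ∀ (m : ℕ) (x : Fin (m + 1) → ℂ), (∀ i, x i ∈ Cl P) →
    Fits P (hf x) ∧ ∀ s, s ∈ touch P (hf x) ↔ s ∈ P ∧ ∃ i, ip s.1 (x i) = s.2

/-- MSY: symmetry of matching, transfer of special bodies -/
def MsyStatement : Prop := ∀ (P Q : Finset HP) (g : Iso2) (h : ℂ → ℝ), Mat P Q g h →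
  Mat Q P g⁻¹ (mb g h) ∧ touch Q (mb g h) = (touch P h).image (mv g) ∧
    (Special P h → Special Q (mb g h))

/-! ### Block M: matching -/

/-- OPN: matching is an open condition -/
def OpnStatement : Prop := ∀ (P Q : Finset HP) (g : Iso2) (h : ℂ → ℝ), Mat P Q g h →
  ∃ ε > 0, ∀ h' : ℂ → ℝ, Fits P h' → (∀ s ∈ P, |h' s.1 - h s.1| < ε) →
    (∀ s ∈ Q, |mb g h' s.1 - mb g h s.1| < ε) → Mat P Q g h'

/-- LC (Lemma C): continuation of the isometry along `mix τ h₀ h`, `τ < 1`, where all bodies are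
special and shorter than `L`, and passage to the limit. -/
def LcStatement : Prop := ∀ P Q : Finset HP, Pg P → Pg Q → G1 P → G1 Q → ∀ L : ℝ, AllM P Q L →
  ∀ h₀ h : ℂ → ℝ, Sublin h₀ → Sublin h → Fits P h₀ → Fits P h → lam h₀ < L → lam h ≤ L →
    3 ≤ (touch P h₀ ∩ touch P h).card →
    ((∃ v, Vx P v ∧ In v h₀ ∧ In v h) ∨ 4 ≤ (touch P h₀ ∩ touch P h).card) →
    ∃ g, Mat P Q g h₀ ∧ Fits Q (mb g h) ∧ ∀ s ∈ touch P h₀ ∩ touch P h, mv g s ∈ Q

/-- LX (Lemma X): if one body touching the triple `S` is matched by `g`, then all are. Set of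
parameters `τ` of the path `mix τ h₀ h` for which the body is matched by `g`: open by OPN,
closed: if `h_τ` is special in `P`, or `g h_τ` is special in `Q`, use `Ok` and UNI (three common
sides); otherwise both touch exactly `S`, `g S`. -/
def LxStatement : Prop := ∀ P Q : Finset HP, Pg P → Pg Q → G1 P → G1 Q → ∀ L : ℝ,
  Ok P Q L → Ok Q P L → ∀ (S : Finset HP) (g : Iso2) (h₀ h : ℂ → ℝ), S.card = 3 →
    S ⊆ touch P h₀ → S ⊆ touch P h → Sublin h₀ → Sublin h → Mat P Q g h₀ → Fits P h →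
    lam h₀ ≤ L → lam h ≤ L → Mat P Q g h

/-- LM (Lemma M): a critical body cannot be moved into `Q` in such a way that the sides which it
touches become sides of `Q`. Otherwise `g h` touches more sides of `Q`, so it is special. -/
def LmStatement : Prop := ∀ P Q : Finset HP, Pg P → Pg Q → G1 P → G1 Q → ∀ (L : ℝ) (h : ℂ → ℝ),
  Crit P Q L h → ¬ ∃ g, Fits Q (mb g h) ∧ ∀ s ∈ touch P h, mv g s ∈ Q

/-- ATT: a shortest unmatched special body exists. Reduce to hulls of `P.card + 2` points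
(contact points, a vertex, a bad point for the only possible isometry); special bodies of this
kind form a compact set, matching is open (OPN, CNT). -/
def AttStatement : Prop := ∀ P Q : Finset HP, Pg P → Pg Q → G1 P → G1 Q →
  (∃ h, Unm P Q h) → ∃ h, Unm P Q h ∧ ∀ h', Unm P Q h' → lam h ≤ lam h'

/-- CGP: if all special bodies are matched, the polygons are congruent (use the closed polygon as
special body) -/
def CgpStatement : Prop := ∀ P Q : Finset HP, Gen P → Gen Q → 4 ≤ P.card →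
  (∀ h, Special P h → ∃ g, Mat P Q g h) → ∃ g : Iso2, P.image (mv g) = Q

/-! ### Block C: critical bodies -/

/-- REF: reflection law at a point of a line. `e₂ = - u² conj e₁` is the reflection. -/
def RefStatement : Prop := ∀ (u p q y : ℂ) (c : ℝ), ‖u‖ = 1 → ip u y = c → ip u p < c →
  ip u q < c → (∃ ε > 0, ∀ t : ℝ, |t| < ε →
    ‖p - y‖ + ‖y - q‖ ≤ ‖p - (y + t * (I * u))‖ + ‖(y + t * (I * u)) - q‖) →
  (∃ κ : ℝ, 0 < κ ∧ (p - y) / (‖p - y‖ : ℂ) + (q - y) / (‖q - y‖ : ℂ) = -((κ : ℂ) * u)) ∧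
  (q - y) / (‖q - y‖ : ℂ) = -(u ^ 2 * (starRingEnd ℂ) ((y - p) / (‖y - p‖ : ℂ)))

/-- RAD: four points on four different sides: two of the segments between them cross (Radon) -/
def RadStatement : Prop := ∀ (x : Fin 4 → ℂ) (s : Fin 4 → HP),
  (∀ i, ip (s i).1 (x i) = (s i).2) → (∀ i j, i ≠ j → ip (s i).1 (x j) < (s i).2) →
  ∃ (e : Equiv.Perm (Fin 4)) (p : ℂ), p ∈ segment ℝ (x (e 0)) (x (e 2)) ∧
    p ∈ segment ℝ (x (e 1)) (x (e 3))

/-- F4: a quadrilateral with vertices inside four different sides is not the shortest body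
touching these sides: otherwise the reflection law gives `(a c)² = (b d)²` for the normals,
against `G1.four`. Uses RAD, PER, REF. -/
def F4Statement : Prop := ∀ P : Finset HP, Pg P → G1 P → ∀ (x : Fin 4 → ℂ) (s : Fin 4 → HP),
  Function.Injective s → (∀ i, s i ∈ P) → (∀ i, ip (s i).1 (x i) = (s i).2) →
  (∀ i, ∀ t ∈ P, t ≠ s i → ip t.1 (x i) < t.2) →
  ∃ y : Fin 4 → ℂ, (∀ i, y i ∈ Cl P ∧ ip (s i).1 (y i) = (s i).2) ∧ lam (hf y) < lam (hf x)

/-- C1: a critical body contains a vertex. Contact points `x_s`. At least five contacts: any four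
contact points span a shorter body, LC, UNI, LM. Four contacts: F4 and LC, LM. -/
def C1Statement : Prop := ∀ P Q : Finset HP, Gen P → Gen Q → ∀ (L : ℝ) (h : ℂ → ℝ),
  Crit P Q L h → ∃ v, Vx P v ∧ In v h

/-- SLD: sliding a vertex of a nondegenerate triangle along a side -/
def SldStatement : Prop := ∀ P : Finset HP, Pg P → G1 P → ∀ k l w, VxOf P k l w →
  ∀ v ∈ Cl P, ∀ x ∈ Cl P, ¬ Collinear ℝ {v, w, x} →
    ∃ s, (s = k ∨ s = l) ∧ ∃ w' ∈ Cl P, ip s.1 w' = s.2 ∧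
      ‖v - w'‖ + ‖w' - x‖ < ‖v - w‖ + ‖w - x‖

/-- SLS: sliding the end of a segment -/
def SlsStatement : Prop := ∀ P : Finset HP, Pg P → G1 P → ∀ k l w, VxOf P k l w →
  ∀ v ∈ Cl P, v ≠ w → ∃ s, (s = k ∨ s = l) ∧ ∃ w' ∈ Cl P, ip s.1 w' = s.2 ∧ ‖v - w'‖ < ‖v - w‖

/-- C2: a critical body with exactly one vertex. `F = touch P h`. `|F| = 3`: LC, LM show that it is
the shortest body containing `v` and touching `q`. `|F| ≥ 5`: three-point hulls, LC, UNI, LM.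
`|F| = 4`: type E. -/
def C2Statement : Prop := ∀ P Q : Finset HP, Gen P → Gen Q → ∀ (L : ℝ) (h : ℂ → ℝ),
  Crit P Q L h → ∀ i j v, VxOf P i j v → In v h → (∀ v', Vx P v' → In v' h → v' = v) →
  (∃ q d, TypeB P h i j q v d) ∨ ∃ q r x y g g', TypeE P Q h i j q r v x y g g'

/-- C3a: a critical body which contains two non-adjacent vertices `v`, `w` and is not the
segment. LC with `hf ![v, w]`; other sides: LC with `hf ![v, w, x]` or, if this is the whole body,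
with `hf ![v, w', x]` (SLD). -/
def C3aStatement : Prop := ∀ P Q : Finset HP, Gen P → Gen Q → ∀ (L : ℝ) (h : ℂ → ℝ),
  Crit P Q L h → ∀ i j k l v w, VxOf P i j v → VxOf P k l w → In v h → In w h →
  i ≠ k → i ≠ l → j ≠ k → j ≠ l → h ≠ hf ![v, w] → False

/-- C3b: the diagonal. SLS at both ends gives two isometries; if they are different, `Q` has a
short edge `[g v, g' w]`, which is matched, against G1. -/
def C3bStatement : Prop := ∀ P Q : Finset HP, Gen P → Gen Q → ∀ (L : ℝ) (h : ℂ → ℝ),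
  Crit P Q L h → ∀ i j k l v w, VxOf P i j v → VxOf P k l w → In v h → In w h →
  i ≠ k → i ≠ l → j ≠ k → j ≠ l → h = hf ![v, w] → False

/-- C4: a critical body which contains two adjacent vertices and no non-adjacent ones. If it is
not the edge: LC with the edge, with `hf ![v, x]`, `hf ![w, x]` for the other contacts, K4. -/
def C4Statement : Prop := ∀ P Q : Finset HP, Gen P → Gen Q → ∀ (L : ℝ) (h : ℂ → ℝ),
  Crit P Q L h → ∀ i j k v w, VxOf P i j v → VxOf P j k w → In v h → In w h → i ≠ k →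
  (∀ a b c d v' w', VxOf P a b v' → VxOf P c d w' → In v' h → In w' h →
    a = c ∨ a = d ∨ b = c ∨ b = d) → TypeA P h i j k v w

/-- CLS: classification of critical bodies (C1 to C4) -/
def ClsStatement : Prop := ∀ P Q : Finset HP, Gen P → Gen Q → ∀ (L : ℝ) (h : ℂ → ℝ),
  Crit P Q L h → (∃ i j k v w, TypeA P h i j k v w) ∨ (∃ i j q v d, TypeB P h i j q v d) ∨
    ∃ i j q r v x y g g', TypeE P Q h i j q r v x y g g'

/-- TYA: properties of type A -/
def TyaStatement : Prop := ∀ P : Finset HP, Pg P → G1 P → ∀ h i j k v w, TypeA P h i j k v w →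
  Tri P i j k ∧ touch P h = {i, j, k} ∧ Special P h ∧ v = vx i j ∧ w = vx j k ∧
    lam h = eA i j k ∧ 0 < eA i j k ∧ IsA i j k (eA i j k) (ip i.1 j.1) (ip j.1 k.1)

/-- TYB: properties of type B -/
def TybStatement : Prop := ∀ P : Finset HP, Pg P → G1 P → ∀ h i j q v d, TypeB P h i j q v d →
  Tri P i j q ∧ touch P h = {i, j, q} ∧ Special P h ∧ v = vx i j ∧ lam h = 2 * d ∧
    lam h = eB i j q ∧ IsB i j q (eB i j q) (ip i.1 j.1) (ip i.1 q.1) (ip j.1 q.1)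

/-! ### Block G: ghosts -/

/-- F3: the reflection law at three points on three lines -/
def F3Statement : Prop := ∀ (s t r : HP) (x y z : ℂ), ‖s.1‖ = 1 → ‖t.1‖ = 1 → ‖r.1‖ = 1 →
  ip s.1 x = s.2 → ip t.1 y = t.2 → ip r.1 z = r.2 → ip s.1 y < s.2 → ip s.1 z < s.2 →
  ip t.1 x < t.2 → ip t.1 z < t.2 → ip r.1 x < r.2 → ip r.1 y < r.2 →
  (∃ ε > 0, ∀ a : ℝ, |a| < ε →
    ‖y - x‖ + ‖x - z‖ ≤ ‖y - (x + a * (I * s.1))‖ + ‖(x + a * (I * s.1)) - z‖ ∧
    ‖x - y‖ + ‖y - z‖ ≤ ‖x - (y + a * (I * t.1))‖ + ‖(y + a * (I * t.1)) - z‖ ∧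
    ‖x - z‖ + ‖z - y‖ ≤ ‖x - (z + a * (I * r.1))‖ + ‖(z + a * (I * r.1)) - y‖) →
  ip s.1 t.1 < 0 ∧ ip t.1 r.1 < 0 ∧ ip r.1 s.1 < 0 ∧
    ‖x - y‖ + ‖y - z‖ + ‖z - x‖ = ell3 s t r

/-- ELL: the function `ell`; acute triples are invariant under isometries -/
def EllStatement : Prop :=
  (∀ s t r : HP, s ≠ t → s ≠ r → t ≠ r → ell {s, t, r} = ell3 s t r) ∧
  (∀ s t r : HP, ell3 t s r = ell3 s t r ∧ ell3 s r t = ell3 s t r) ∧
  (∀ (g : Iso2) (s t r : HP), ‖s.1‖ = 1 → ‖t.1‖ = 1 → ‖r.1‖ = 1 → ip s.1 t.1 < 0 →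
    ip t.1 r.1 < 0 → ip r.1 s.1 < 0 → ell3 (mv g s) (mv g t) (mv g r) = ell3 s t r) ∧
  ∀ (g : Iso2) (S : Finset HP), S.card = 3 → (∀ s ∈ S, ‖s.1‖ = 1) → Acute S →
    ell (S.image (mv g)) = ell S ∧ Acute (S.image (mv g)) ∧ (S.image (mv g)).card = 3

/-- GHO: a ghost is acute; the shortest body touching it is the orthic triangle. Minimum over
three points of the closed polygon on the three sides; it is not special, so it touches exactly
`S`, contains no vertex, F3. -/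
def GhoStatement : Prop := ∀ P : Finset HP, Gen P → ∀ S : Finset HP, Ghost P S →
  Acute S ∧ ∃ h₀, Sublin h₀ ∧ Fits P h₀ ∧ touch P h₀ = S ∧ lam h₀ = ell S ∧
    ∀ h, Sublin h → Fits P h → S ⊆ touch P h → ell S ≤ lam h

/-- EXI (exit lemma): a body inside the three half-planes which touches the three lines and is
not much longer than `L` fits. Compactness for four contact points, then the first exit of
`mix τ h₀ h`. -/
def ExiStatement : Prop := ∀ P : Finset HP, Gen P → ∀ (S : Finset HP) (L : ℝ), S ⊆ P →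
  S.card = 3 → (∃ h₀, Sublin h₀ ∧ Fits P h₀ ∧ lam h₀ ≤ L ∧ S ⊆ touch P h₀) →
  (∀ h, Sublin h → Fits P h → S ⊆ touch P h → lam h ≤ L → (touch P h).card ≤ 3) →
  ∃ δ > 0, ∀ h, Sublin h → (∀ s ∈ S, h s.1 = s.2) → lam h < L + δ → Fits P h ∧ touch P h = S

/-- UNT: untouched triples -/
def UntStatement : Prop := ∀ P : Finset HP, Gen P → ∀ (S : Finset HP) (L : ℝ), S ⊆ P →
  S.card = 3 → (∀ h, Sublin h → Fits P h → S ⊆ touch P h → L < lam h) →
  ∃ δ > 0, ∀ h, Sublin h → Fits P h → S ⊆ touch P h → L + δ ≤ lam h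

/-- LOC: matched triples. The bodies `hf x`, `x : Fin 4 → Cl P`, touching `S` and not matched by
`g` form a compact set, all of them are longer than `L` by LX; four-point reduction. -/
def LocStatement : Prop := ∀ P Q : Finset HP, Gen P → Gen Q → ∀ L : ℝ, Ok P Q L → Ok Q P L →
  ∀ (S : Finset HP) (g : Iso2) (h₀ : ℂ → ℝ), S.card = 3 → Sublin h₀ → Mat P Q g h₀ →
    lam h₀ ≤ L → S ⊆ touch P h₀ →
    ∃ δ > 0, ∀ h, Sublin h → Fits P h → S ⊆ touch P h → lam h < L + δ → Mat P Q g h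

/-- EVT: matched events (from LOC for `P`, `Q` and for `Q`, `P`) -/
def EvtStatement : Prop := ∀ P Q : Finset HP, Gen P → Gen Q → ∀ L : ℝ, Ok P Q L → Ok Q P L →
  ∀ (S : Finset HP) (g : Iso2) (h₀ : ℂ → ℝ), S.card = 3 → Sublin h₀ → Mat P Q g h₀ →
    lam h₀ ≤ L → S ⊆ touch P h₀ →
    ∃ δ > 0, ∀ h, Sublin h → lam h < L + δ → (Ev P S h ↔ Ev Q (S.image (mv g)) (mb g h))

/-- EVN: from the conclusion of EXI to events -/
def EvnStatement : Prop := ∀ (P S : Finset HP) (L δ : ℝ), S ⊆ P →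
  (∀ h, Sublin h → (∀ s ∈ S, h s.1 = s.2) → lam h < L + δ → Fits P h ∧ touch P h = S) →
  ∀ h, Sublin h → lam h < L + δ → (Ev P S h ↔ EvL S h)

/-- BRD: at a vertex with an acute angle the segment of type B is not the shortest body touching
the three sides -/
def BrdStatement : Prop := ∀ P : Finset HP, Pg P → G1 P → ∀ h i j q v d, TypeB P h i j q v d →
  ip i.1 j.1 < 0 → ∃ h', Sublin h' ∧ Fits P h' ∧ touch P h' = {i, j, q} ∧ lam h' < lam h

/-- ALC: altitudes of an acute triangle -/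
def AlcStatement : Prop := ∀ i j q : HP, ‖i.1‖ = 1 → ‖j.1‖ = 1 → ‖q.1‖ = 1 → ip i.1 j.1 < 0 →
  ip i.1 q.1 < 0 → ip j.1 q.1 < 0 →
  ell3 i j q = 2 * |dt i.1 j.1| * (q.2 - ip q.1 (vx i j)) ∧
  (0 < q.2 - ip q.1 (vx i j) → 0 < ell3 i j q ∧ ell3 i j q < 2 * (q.2 - ip q.1 (vx i j)) ∧
    0 < j.2 - ip j.1 (vx i q) ∧
    (q.2 - ip q.1 (vx i j) < j.2 - ip j.1 (vx i q) ↔ ip i.1 q.1 < ip i.1 j.1))

/-- ALT: an altitude of length at most `L / 2` is a body of type B. The segment satisfies the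
hypotheses of EXI, so it fits and its end is a vertex of `P`. -/
def AltStatement : Prop := ∀ P : Finset HP, Gen P → ∀ (S : Finset HP) (L : ℝ), S ⊆ P →
  S.card = 3 → Acute S → (∃ h₀, Sublin h₀ ∧ Fits P h₀ ∧ lam h₀ ≤ L ∧ S ⊆ touch P h₀) →
  (∀ h, Sublin h → Fits P h → S ⊆ touch P h → lam h ≤ L → (touch P h).card ≤ 3) →
  ∀ i j q, S = {i, j, q} → 0 < q.2 - ip q.1 (vx i j) ∧ (q.2 - ip q.1 (vx i j) ≤ L / 2 →
    ∃ h, TypeB P h i j q (vx i j) (q.2 - ip q.1 (vx i j)))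

/-! ### Block D: the critical level -/

/-- EXE: type E does not occur at the critical level. SLD at `v` gives a shorter body touching
`i*, q, r`; if a special body shorter than `L` touches this triple, K4 gives `g = g'`; otherwise
it is a ghost and its partner in `Q` contradicts `G2.flip` for `Q`. -/
def ExeStatement : Prop := ∀ P Q : Finset HP, Gen P → Gen Q → ∀ (L : ℝ) (h : ℂ → ℝ),
  Crit P Q L h → GhP P Q L → ∀ i j q r v x y g g', TypeE P Q h i j q r v x y g g' → False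

/-- TAM: at the critical level all unmatched special bodies are of type A or B. Take an unmatched
special body of `P` or `Q` at the level `L` with the largest number of contacts: it is critical,
so it has three contacts, so all of them are critical. -/
def TamStatement : Prop := ∀ P Q : Finset HP, Gen P → Gen Q → ∀ L : ℝ, AllM P Q L → AllM Q P L →
  GhP P Q L → GhP Q P L → Ok P Q L ∧ Ok Q P L ∧
    ∀ h, Unm P Q h → lam h = L →
      (∃ i j k v w, TypeA P h i j k v w) ∨ (∃ i j q v d, TypeB P h i j q v d)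

/-- the possible triples which are touched, but not by a matched special body -/
def NCase (P Q : Finset HP) (L : ℝ) (S : Finset HP) : Prop :=
  (Ghost P S ∧ Old S L) ∨
  (Ghost P S ∧ S.card = 3 ∧ Acute S ∧ ell S = L ∧
    ∀ i j q, S = {i, j, q} → L / 2 < q.2 - ip q.1 (vx i j)) ∨
  (∃ h i j k v w, Unm P Q h ∧ lam h = L ∧ TypeA P h i j k v w ∧ S = {i, j, k}) ∨
  (∃ h i j q v d, Unm P Q h ∧ lam h = L ∧ TypeB P h i j q v d ∧ S = {i, j, q} ∧
    (0 < ip i.1 j.1 ∨ (Ghost P S ∧ Acute S ∧ 0 < ell S ∧ ell S < L ∧ ip i.1 q.1 < ip i.1 j.1 ∧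
      ip j.1 q.1 < ip i.1 j.1)))

/-- NCL: classification of the triples in `NTouch` -/
def NclStatement : Prop := ∀ P Q : Finset HP, Gen P → Gen Q → ∀ L : ℝ, 0 < L → AllM P Q L →
  AllM Q P L → GhP P Q L → GhP Q P L → ∀ S ⊆ P, S.card = 3 → NTouch P Q L S → NCase P Q L S

/-- CGA: triples of type A with the same data are congruent -/
def CgaStatement : Prop := ∀ i j k i' j' k' L c c', IsA i j k L c c' → IsA i' j' k' L c c' →
  ∃ g : Iso2, mv g i = i' ∧ mv g j = j' ∧ mv g k = k'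

/-- CGB: triples of type B with the same data are congruent -/
def CgbStatement : Prop := ∀ i j q i' j' q' L c a b, IsB i j q L c a b → IsB i' j' q' L c a b →
  ∃ g : Iso2, mv g i = i' ∧ mv g j = j' ∧ mv g q = q'

/-- LEV: the critical level: the minimum of the lengths of the unmatched special bodies and of
the lengths of the ghosts without partner -/
def LevStatement : Prop := ∀ P Q : Finset HP, Gen P → Gen Q → 4 ≤ P.card →
  (¬ ∃ g : Iso2, P.image (mv g) = Q) → ∃ L : ℝ, 0 < L ∧ AllM P Q L ∧ AllM Q P L ∧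
    GhP P Q L ∧ GhP Q P L ∧
    ((∃ h, Unm P Q h ∧ lam h = L) ∨ (∃ h, Unm Q P h ∧ lam h = L) ∨
      (∃ S, Ghost P S ∧ ell S = L ∧ ¬ ∃ S', Ghost Q S' ∧ ell S' = L) ∨
      (∃ S, Ghost Q S ∧ ell S = L ∧ ¬ ∃ S', Ghost P S' ∧ ell S' = L))

/-- GEO: the geometric theorem -/
def GeoStatement : Prop := ∀ P Q : Finset HP, Gen P → Gen Q → 4 ≤ P.card →
  (¬ ∃ g : Iso2, P.image (mv g) = Q) → ∃ L δ M N N' γ it it', Split P Q L δ M N N' γ it it'

end Pool.Agent.AEU
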