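import Pool.Agent.Helper25_AEU.Final0
import Pool.Agent.Helper39_AEU.C3b

/-!
AEU (MP_5b0138_an), Part II: the geometric part, unconditional.
-/

set_option autoImplicit false

namespace Pool.Agent.AEU.H25

open Pool.Agent.AEU

/-- **Part II.** -/
theorem geo_final : GeoStatement :=
  Fin.geo_of_c3b (H39.c3b Fin.lc Fin.lm Fin.uni Fin.sls Fin.ver Fin.mixs Fin.hul Fin.per Fin.act)

end Pool.Agent.AEU.H25
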