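import Pool.Agent.Helper25_AEU.Geo
import Pool.Agent.Helper10_AEU.Types
import Pool.Agent.Helper20_AEU.Att
import Pool.Agent.Helper20_AEU.Gap
import Pool.Agent.Helper20_AEU.Lev
import Pool.Agent.Helper39_AEU.Cls
import Pool.Agent.Helper39_AEU.Exe
import Pool.Agent.Helper39_AEU.Tam
import Pool.Agent.Helper51_AEU.Alt
import Pool.Agent.Helper18_AEU.EVT
import Pool.Agent.Helper18_AEU.LM
import Pool.Agent.Helper55_AEU.C1
import Pool.Agent.Helper55_AEU.Cgp
import Pool.Agent.Helper55_AEU.Sld
import Pool.Agent.Helper55_AEU.Ver
import Pool.Agent.Helper5_AEU.C2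
import Pool.Agent.Helper83_AEU.C3a
import Pool.Agent.Helper83_AEU.C4
import Pool.Agent.Helper83_AEU.NCL
import Pool.Agent.Helper44_AEU.Gho
import Pool.Agent.Helper44_AEU.F4
import Pool.Agent.Helper44_AEU.Uni
import Pool.Agent.Helper69_AEU.Tools
import Pool.Agent.Helper69_AEU.Lam
import Pool.Agent.Helper69_AEU.Per
import Pool.Agent.Helper72_AEU.ACT
import Pool.Agent.Helper72_AEU.RAD
import Pool.Agent.Helper72_AEU.REF
import Pool.Agent.Helper72_AEU.F3
import Pool.Agent.Helper40_AEU.Alc
import Pool.Agent.Helper40_AEU.Cg
import Pool.Agent.Helper40_AEU.Ell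

/-!
AEU (MP_5b0138_an), Part II: assembly of all modules except C3b.
-/

set_option autoImplicit false

namespace Pool.Agent.AEU.H25.Fin

open Pool.Agent.AEU

theorem act : ActStatement := H72.act
theorem lam : LamStatement := H69.lamS
theorem mixs : MixStatement := H69.mixS
theorem sup : SupStatement := H69.sup
theorem hul : HulStatement := H69.hul
theorem msy : MsyStatement := H69.msy act
theorem opn : OpnStatement := H69.opn act
theorem per : PerStatement := H69.per
theorem cnt : CntStatement := H69.cnt
theorem rad : RadStatement := H72.rad
theorem ref : RefStatement := H72.ref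
theorem ver : VerStatement := H55.ver
theorem uni : UniStatement := H44.uni act
theorem k4 : K4Statement := H44.k4 uni act
theorem f3 : F3Statement := H72.f3
theorem f4 : F4Statement := H44.f4 rad per ref
theorem ell : EllStatement := H40.ell act
theorem gho : GhoStatement := H44.gho f3 ell cnt hul per sup ver mixs lam
theorem lc : LcStatement := H25.lc act mixs opn uni
theorem lx : LxStatement := H25.lx act lam mixs opn uni msy
theorem lm : LmStatement := H18.lm msy uni act lam
theorem sld : SldStatement := H55.sld
theorem cgp : CgpStatement := H55.cgp act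
theorem att : AttStatement := H20.att sup hul cnt opn uni mixs ver lam act
theorem unt : UntStatement := H20.unt cnt hul sup ver mixs lam
theorem exi : ExiStatement := H20.exi cnt hul sup ver mixs lam
theorem loc : LocStatement := H20.loc lx opn cnt hul sup ver mixs lam act
theorem evt : EvtStatement := H18.evt loc msy act lam
theorem evn : EvnStatement := H51.evn lam
theorem alt : AltStatement := H51.alt exi ver hul per
theorem lev : LevStatement := H20.lev att cgp gho lam sup ver
theorem c1 : C1Statement := H55.c1 f4 lc lm uni sup mixs hul lam
theorem c2 : C2Statement := H5.c2 sup lam hul per uni ver mixs lc lm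
theorem c3a : C3aStatement := H83.c3a sup lam hul per uni ver mixs lc lm sld
theorem c4 : C4Statement := H83.c4 sup lam hul per k4 ver mixs lc lm
theorem sls : SlsStatement := H10.sls ver
theorem tya : TyaStatement := H10.tya ver mixs hul per
theorem tyb : TybStatement := H10.tyb ver mixs hul per
theorem brd : BrdStatement := H10.brd ver mixs hul per
theorem exe : ExeStatement := H39.exe sld k4 uni gho ell per act ver mixs hul
theorem alc : AlcStatement := H40.alc
theorem cga : CgaStatement := H40.cga
theorem cgb : CgbStatement := H40.cgb

theorem geo_of_c3b (c3b : C3bStatement) : GeoStatement := by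
  have cls : ClsStatement := H39.cls c1 c2 c3a c3b c4 ver
  have tam : TamStatement := H39.tam cls exe lm tya tyb
  have ncl : NclStatement := H83.ncl tam gho brd alt alc ell tya tyb
  exact H25.geo act lam uni msy lx ell gho exi unt evt evn tam ncl cga cgb tya tyb lev

end Pool.Agent.AEU.H25.Fin
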