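import Pool.Agent.Helper25_AEU.LX

/-!
Squad AEU, Part II, module GEO: assembly.
-/

namespace Pool.Agent.AEU.H25

open MeasureTheory Complex Filter Topology Pool.Agent.H62T Pool.Agent.AEU
open Pool.Agent.H16F (Sublin)

/-! ### Preparations -/

theorem mv_inv (hact : ActStatement) (g : Iso2) (s : HP) : mv g⁻¹ (mv g s) = s := by
  rw [← hact.1, inv_mul_cancel, hact.2.1]

theorem mv_inv' (hact : ActStatement) (g : Iso2) (s : HP) : mv g (mv g⁻¹ s) = s := by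
  rw [← hact.1, mul_inv_cancel, hact.2.1]

theorem mb_inv (hact : ActStatement) (g : Iso2) (h : ℂ → ℝ) : mb g⁻¹ (mb g h) = h := by
  rw [← hact.2.2.1, inv_mul_cancel, hact.2.2.2.1]

theorem mv_inj (hact : ActStatement) (g : Iso2) : Function.Injective (mv g) := fun s t hst => by
  have := congrArg (mv g⁻¹) hst
  rwa [mv_inv hact, mv_inv hact] at this

theorem image_inv (hact : ActStatement) (g : Iso2) (S : Finset HP) :
    (S.image (mv g)).image (mv g⁻¹) = S := by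
  rw [Finset.image_image]
  have : mv g⁻¹ ∘ mv g = id := by funext s; exact mv_inv hact g s
  rw [this, Finset.image_id]

theorem tri_of_card {P S : Finset HP} (hS : S ⊆ P) (h3 : S.card = 3) :
    ∃ a b c, Tri P a b c ∧ S = {a, b, c} := by
  obtain ⟨a, b, c, hab, hac, hbc, rfl⟩ := Finset.card_eq_three.1 h3
  exact ⟨a, b, c, ⟨hS (by simp), hS (by simp), hS (by simp), hab, hac, hbc⟩, rfl⟩

theorem ell_tri (hell : EllStatement) {P : Finset HP} {a b c : HP} (h : Tri P a b c) :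
    ell {a, b, c} = ell3 a b c := hell.1 a b c h.2.2.2.1 h.2.2.2.2.1 h.2.2.2.2.2

theorem ell_inj (hell : EllStatement) {P : Finset HP} (gP : Gen P) {S T : Finset HP}
    (hS : S ⊆ P) (hT : T ⊆ P) (hS3 : S.card = 3) (hT3 : T.card = 3) (h : ell S = ell T) :
    S = T := by
  obtain ⟨a, b, c, h1, rfl⟩ := tri_of_card hS hS3
  obtain ⟨a', b', c', h1', rfl⟩ := tri_of_card hT hT3
  rw [ell_tri hell h1, ell_tri hell h1'] at h
  have := gP.g2.ss _ _ _ _ _ _ h1 h1' h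
  ext s
  simpa using this s

/-- matched special bodies can be moved -/
theorem mtouch_move (hact : ActStatement) (hlam : LamStatement) (hmsy : MsyStatement)
    {P Q : Finset HP} {L : ℝ} {S : Finset HP} {g : Iso2} {h : ℂ → ℝ} (hs : Special P h)
    (hm : Mat P Q g h) (hl : lam h ≤ L) (hS : S ⊆ touch P h) :
    MTouch Q P L (S.image (mv g)) ∧ S.image (mv g) ⊆ Q ∧ (S.image (mv g)).card = S.card := by
  obtain ⟨h1, h2, h3⟩ := hmsy P Q g h hm
  refine ⟨⟨g⁻¹, mb g h, h3 hs, h1, ?_, ?_⟩, ?_, ?_⟩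
  · rw [hlam.2.2.2 g h hs.sub]; exact hl
  · rw [h2]; exact Finset.image_subset_image hS
  · intro t ht
    obtain ⟨s, hs', rfl⟩ := Finset.mem_image.1 ht
    exact hm.mem s (hS hs')
  · exact Finset.card_image_of_injective _ (mv_inj hact g)

/-- finitely many radii -/
theorem exists_delta (L : ℝ) (T : Finset (Finset HP)) (R : Finset HP → (ℂ → ℝ) → Prop)
    (H : ∀ S ∈ T, ∃ δ > 0, ∀ h, Sublin h → lam h < L + δ → R S h) :
    ∃ δ > 0, ∀ S ∈ T, ∀ h, Sublin h → lam h < L + δ → R S h := by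
  classical
  induction T using Finset.induction_on with
  | empty => exact ⟨1, one_pos, by simp⟩
  | insert S T _ ih =>
    obtain ⟨δ₁, p₁, h₁⟩ := H S (Finset.mem_insert_self _ _)
    obtain ⟨δ₂, p₂, h₂⟩ := ih fun S' hS' => H S' (Finset.mem_insert_of_mem hS')
    refine ⟨min δ₁ δ₂, lt_min p₁ p₂, ?_⟩
    intro S' hS' h hs hl
    rcases Finset.mem_insert.1 hS' with rfl | hS'
    · exact h₁ h hs (hl.trans_le (by linarith [min_le_left δ₁ δ₂]))
    · exact h₂ S' hS' h hs (hl.trans_le (by linarith [min_le_right δ₁ δ₂]))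

/-- scaled and translated copies -/
theorem sub_scale {h : ℂ → ℝ} (hs : Sublin h) {σ : ℝ} (h0 : 0 ≤ σ) (x : ℂ) :
    Sublin fun w => σ * h w + ip w x := by
  refine ⟨?_, ?_⟩
  · intro a b
    have := hs.1 a b
    have h1 : ip (a + b) x = ip a x + ip b x := by simp [ip]; ring
    have h2 := mul_le_mul_of_nonneg_left this h0
    simp only [h1]; nlinarith
  · intro c a hc
    have h1 : ip ((c : ℂ) * a) x = c * ip a x := by simp [ip]; ring
    simp only [h1, hs.2 c a hc]; ring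

theorem lam_scale (hlam : LamStatement) {h : ℂ → ℝ} (hs : Sublin h) (σ : ℝ) (x : ℂ) :
    lam (fun w => σ * h w + ip w x) = σ * lam h := by
  have := hlam.1 h h hs hs σ 0 x
  simpa using this

/-! ### Deltas -/

section Main

variable (hact : ActStatement) (hlam : LamStatement) (huni : UniStatement) (hmsy : MsyStatement)
  (hlx : LxStatement) (hell : EllStatement) (hgho : GhoStatement) (hexi : ExiStatement)
  (hunt : UntStatement) (hevt : EvtStatement) (hevn : EvnStatement) (htam : TamStatement)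
  (hncl : NclStatement) (hcga : CgaStatement) (hcgb : CgbStatement) (htya : TyaStatement)
  (htyb : TybStatement)

include hexi hevn in
theorem delta_N {P Q : Finset HP} (gP : Gen P) {L : ℝ} (ok : Ok P Q L) {S : Finset HP}
    (hS : S ⊆ P) (h3 : S.card = 3) (hN : NTouch P Q L S) :
    ∃ δ > 0, ∀ h, Sublin h → lam h < L + δ → (Ev P S h ↔ EvL S h) := by
  obtain ⟨⟨h₀, s₀, f₀, l₀, t₀⟩, hno⟩ := hN
  obtain ⟨δ, hδ, h⟩ := hexi P gP S L hS h3 ⟨h₀, s₀, f₀, l₀, t₀⟩ (by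
    intro h hs hf ht hl
    by_contra hc
    have hsp : Special P h := ⟨hs, hf, by omega, Or.inr (by omega)⟩
    rcases ok h hsp hl with ⟨g, hg⟩ | ⟨h3', _⟩
    · exact hno ⟨g, h, hsp, hg, hl, ht⟩
    · omega)
  exact ⟨δ, hδ, hevn P S L δ hS h⟩

include hlam hunt in
theorem delta_out {P : Finset HP} (gP : Gen P) {L : ℝ} {S : Finset HP}
    (hS : S ⊆ P) (h3 : S.card = 3)
    (hno : ∀ h, Sublin h → Fits P h → S ⊆ touch P h → L < lam h) :
    ∃ δ > 0, ∀ h, Sublin h → lam h < L + δ → ¬ Ev P S h := by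
  obtain ⟨δ, hδ, h⟩ := hunt P gP S L hS h3 hno
  refine ⟨δ, hδ, ?_⟩
  rintro h' hs hl ⟨σ, x, h0, h1, hf, ht⟩
  have h2 := h _ (sub_scale hs h0.le x) hf (by rw [ht])
  rw [lam_scale hlam hs] at h2
  have h3 := hlam.2.2.1 h' hs
  nlinarith only [hl, h2, h1, h3]

/-- a triple is matched, new or untouched -/
theorem tricho {P Q : Finset HP} {L : ℝ} {S : Finset HP} (hM : ¬ MTouch P Q L S)
    (hN : ¬ NTouch P Q L S) : ∀ h, Sublin h → Fits P h → S ⊆ touch P h → L < lam h := by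
  intro h hs hf ht
  by_contra hl
  exact hN ⟨⟨h, hs, hf, not_lt.1 hl, ht⟩, hM⟩

/-! ### The item -/

/-- the item of `P` with its origin -/
def ItP (P Q : Finset HP) (L : ℝ) (N : Finset (Finset HP)) : Item → Prop
  | Item.none => ∀ S ∈ N, Old S L
  | Item.gh => ∃ S₀ ∈ N, (∀ S ∈ N, S ≠ S₀ → Old S L) ∧ Ghost P S₀ ∧ S₀.card = 3 ∧ Acute S₀ ∧
      ell S₀ = L ∧ ∀ i j q, S₀ = {i, j, q} → L / 2 < q.2 - ip q.1 (vx i j)
  | Item.A c c' => ∃ S₀ ∈ N, (∀ S ∈ N, S ≠ S₀ → Old S L) ∧ ∃ h i j k v w, Unm P Q h ∧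
      lam h = L ∧ TypeA P h i j k v w ∧ S₀ = {i, j, k} ∧ c = ip i.1 j.1 ∧ c' = ip j.1 k.1
  | Item.B c a b => ∃ S₀ ∈ N, (∀ S ∈ N, S ≠ S₀ → Old S L) ∧ ∃ h i j q v d, Unm P Q h ∧
      lam h = L ∧ TypeB P h i j q v d ∧ S₀ = {i, j, q} ∧
      (0 < ip i.1 j.1 ∨ (Ghost P S₀ ∧ Acute S₀ ∧ 0 < ell S₀ ∧ ell S₀ < L ∧
        ip i.1 q.1 < ip i.1 j.1 ∧ ip j.1 q.1 < ip i.1 j.1)) ∧
      c = ip i.1 j.1 ∧ a = ip i.1 q.1 ∧ b = ip j.1 q.1

/-- the value `L` is attained by one of the critical lengths of the triple -/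
def Val (P : Finset HP) (L : ℝ) (S : Finset HP) : Prop :=
  (∃ a b c, Tri P a b c ∧ S = {a, b, c} ∧ ell3 a b c = L) ∨
  (∃ i j k, Tri P i j k ∧ S = {i, j, k} ∧ eA i j k = L) ∨
  (∃ i j q, Tri P i j q ∧ S = {i, j, q} ∧ eB i j q = L)

theorem set3_eq {a b c a' b' c' : HP}
    (h : ∀ s, (s = a ∨ s = b ∨ s = c) ↔ (s = a' ∨ s = b' ∨ s = c')) :
    ({a, b, c} : Finset HP) = {a', b', c'} := by
  ext s; simpa using h s

theorem val_unique {P : Finset HP} (gP : Gen P) {L : ℝ} {S T : Finset HP} (hS : Val P L S)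
    (hT : Val P L T) : S = T := by
  rcases hS with ⟨a, b, c, h1, rfl, h2⟩ | ⟨a, b, c, h1, rfl, h2⟩ | ⟨a, b, c, h1, rfl, h2⟩ <;>
  rcases hT with ⟨a', b', c', k1, rfl, k2⟩ | ⟨a', b', c', k1, rfl, k2⟩ | ⟨a', b', c', k1, rfl, k2⟩
  · exact set3_eq (gP.g2.ss _ _ _ _ _ _ h1 k1 (h2.trans k2.symm))
  · exact absurd (h2.trans k2.symm) (gP.g2.sa _ _ _ _ _ _ h1 k1)
  · exact absurd (h2.trans k2.symm) (gP.g2.sb _ _ _ _ _ _ h1 k1)
  · exact absurd (k2.trans h2.symm) (gP.g2.sa _ _ _ _ _ _ k1 h1)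
  · rcases gP.g2.aa _ _ _ _ _ _ h1 k1 (h2.trans k2.symm) with ⟨rfl, ⟨rfl, rfl⟩ | ⟨rfl, rfl⟩⟩
    · rfl
    · ext s; simp; tauto
  · exact absurd (h2.trans k2.symm) (gP.g2.ab _ _ _ _ _ _ h1 k1)
  · exact absurd (k2.trans h2.symm) (gP.g2.sb _ _ _ _ _ _ k1 h1)
  · exact absurd (k2.trans h2.symm) (gP.g2.ab _ _ _ _ _ _ k1 h1)
  · rcases gP.g2.bb _ _ _ _ _ _ h1 k1 (h2.trans k2.symm) with ⟨rfl, ⟨rfl, rfl⟩ | ⟨rfl, rfl⟩⟩
    · rfl
    · ext s; simp; tauto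

include hell htya htyb in
theorem ncase_val {P Q : Finset HP} (gP : Gen P) {L : ℝ} {S : Finset HP} (hS : S ⊆ P)
    (h3 : S.card = 3) (hc : NCase P Q L S) (ho : ¬ Old S L) : Val P L S := by
  rcases hc with ⟨_, h⟩ | ⟨_, _, _, h, _⟩ | ⟨h, i, j, k, v, w, _, hl, hA, rfl⟩ |
    ⟨h, i, j, q, v, d, _, hl, hB, rfl, _⟩
  · exact absurd h ho
  · obtain ⟨a, b, c, h1, rfl⟩ := tri_of_card hS h3
    exact Or.inl ⟨a, b, c, h1, rfl, by rw [← ell_tri hell h1]; exact h⟩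
  · obtain ⟨h1, _, _, _, _, h2, _⟩ := htya P gP.pg gP.g1 _ _ _ _ _ _ hA
    exact Or.inr (Or.inl ⟨i, j, k, h1, rfl, by rw [← h2]; exact hl⟩)
  · obtain ⟨h1, _, _, _, _, h2, _⟩ := htyb P gP.pg gP.g1 _ _ _ _ _ _ hB
    exact Or.inr (Or.inr ⟨i, j, q, h1, rfl, by rw [← h2]; exact hl⟩)

include hell htya htyb in
theorem it_exists {P Q : Finset HP} (gP : Gen P) {L : ℝ} {N : Finset (Finset HP)}
    (hN : ∀ S ∈ N, S ⊆ P ∧ S.card = 3 ∧ NCase P Q L S) : ∃ it, ItP P Q L N it := by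
  by_cases hall : ∀ S ∈ N, Old S L
  · exact ⟨Item.none, hall⟩
  push Not at hall
  obtain ⟨S₀, hS₀, ho⟩ := hall
  obtain ⟨hsub, h3, hc⟩ := hN S₀ hS₀
  have hv := ncase_val hell htya htyb gP hsub h3 hc ho
  have hoth : ∀ S ∈ N, S ≠ S₀ → Old S L := by
    intro S hS hne
    by_contra ho'
    obtain ⟨k1, k2, k3⟩ := hN S hS
    exact hne (val_unique gP (ncase_val hell htya htyb gP k1 k2 k3 ho') hv)
  rcases hc with ⟨_, h⟩ | ⟨h1, h2, h3, h4, h5⟩ | ⟨h, i, j, k, v, w, hu, hl, hA, hSe⟩ |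
    ⟨h, i, j, q, v, d, hu, hl, hB, hSe, hor⟩
  · exact absurd h ho
  · exact ⟨Item.gh, S₀, hS₀, hoth, h1, h2, h3, h4, h5⟩
  · exact ⟨Item.A _ _, S₀, hS₀, hoth, h, i, j, k, v, w, hu, hl, hA, hSe, rfl, rfl⟩
  · exact ⟨Item.B _ _ _, S₀, hS₀, hoth, h, i, j, q, v, d, hu, hl, hB, hSe, hor, rfl, rfl, rfl⟩

include htya htyb in
theorem it_has {P Q : Finset HP} (gP : Gen P) {L : ℝ} {N : Finset (Finset HP)}
    (hN : ∀ S ∈ N, S ⊆ P ∧ S.card = 3) {it : Item} (h : ItP P Q L N it) : HasItem N L it := by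
  cases it with
  | none => exact h
  | gh =>
    obtain ⟨S₀, hS₀, hoth, _, h2, h3, h4, h5⟩ := h
    exact ⟨S₀, hS₀, hoth, h2, fun s hs => gP.pg.unit s ((hN S₀ hS₀).1 hs), h3, h4, h5⟩
  | A c c' =>
    obtain ⟨S₀, hS₀, hoth, h, i, j, k, v, w, _, hl, hA, hSe, rfl, rfl⟩ := h
    obtain ⟨_, _, _, _, _, h2, _, h4⟩ := htya P gP.pg gP.g1 _ _ _ _ _ _ hA
    rw [← h2, hl] at h4
    exact ⟨S₀, hS₀, hoth, i, j, k, hSe, (hN S₀ hS₀).2, h4⟩
  | B c a b =>
    obtain ⟨S₀, hS₀, hoth, h, i, j, q, v, d, _, hl, hB, hSe, hor, rfl, rfl, rfl⟩ := h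
    obtain ⟨_, _, _, _, _, h2, h4⟩ := htyb P gP.pg gP.g1 _ _ _ _ _ _ hB
    rw [← h2, hl] at h4
    refine ⟨S₀, hS₀, hoth, i, j, q, hSe, (hN S₀ hS₀).2, h4, ?_⟩
    rcases hor with h | ⟨_, h1, h2, h3, h5, h6⟩
    · exact Or.inl h
    · exact Or.inr ⟨h1, h2, h3, h6, h5⟩

/-! ### The items are different -/

include hlx htya htyb in
/-- an unmatched special body at the level `L` produces a triple in `NTouch` -/
theorem unm_N {P Q : Finset HP} (gP : Gen P) (gQ : Gen Q) {L : ℝ} (okP : Ok P Q L)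
    (okQ : Ok Q P L)
    (cl : ∀ h, Unm P Q h → lam h = L →
      (∃ i j k v w, TypeA P h i j k v w) ∨ (∃ i j q v d, TypeB P h i j q v d))
    {h : ℂ → ℝ} (hu : Unm P Q h) (hl : lam h = L) :
    ∃ S ⊆ P, S.card = 3 ∧ NTouch P Q L S ∧
      ¬ (Acute S ∧ ∀ i j q, S = {i, j, q} → L / 2 < q.2 - ip q.1 (vx i j)) := by
  have hNT : ∀ S : Finset HP, S.card = 3 → S = touch P h → NTouch P Q L S := by
    intro S h3 hS
    refine ⟨⟨h, hu.1.sub, hu.1.fits, hl.le, hS.le⟩, ?_⟩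
    rintro ⟨g, h', hs', hm', hl', ht'⟩
    exact hu.2 ⟨g, hlx P Q gP.pg gQ.pg gP.g1 gQ.g1 L okP okQ S g h' h h3 ht' hS.le hs'.sub
      hu.1.sub hm' hu.1.fits hl' hl.le⟩
  rcases cl h hu hl with ⟨i, j, k, v, w, hA⟩ | ⟨i, j, q, v, d, hB⟩
  · obtain ⟨h1, h2, _, _, _, _, _, h4⟩ := htya P gP.pg gP.g1 _ _ _ _ _ _ hA
    have h3 : ({i, j, k} : Finset HP).card = 3 :=
      Finset.card_eq_three.2 ⟨i, j, k, h1.2.2.2.1, h1.2.2.2.2.1, h1.2.2.2.2.2, rfl⟩
    refine ⟨{i, j, k}, ?_, h3, hNT _ h3 h2.symm, ?_⟩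
    · rw [← h2]; exact touch_sub P h
    · rintro ⟨ha, _⟩
      have := ha i (by simp) j (by simp) h1.2.2.2.1
      have := h4.ij
      have := h4.pos
      linarith
  · obtain ⟨h1, h2, _, _, _, h5, h4⟩ := htyb P gP.pg gP.g1 _ _ _ _ _ _ hB
    have h3 : ({i, j, q} : Finset HP).card = 3 :=
      Finset.card_eq_three.2 ⟨i, j, q, h1.2.2.2.1, h1.2.2.2.2.1, h1.2.2.2.2.2, rfl⟩
    refine ⟨{i, j, q}, ?_, h3, hNT _ h3 h2.symm, ?_⟩
    · rw [← h2]; exact touch_sub P h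
    · rintro ⟨_, ha⟩
      have h6 := ha i j q rfl
      have h7 := h4.len
      rw [← h5, hl] at h7
      linarith

include hgho in
/-- a ghost at the level `L` is in `NTouch` -/
theorem ghost_N {P Q : Finset HP} (gP : Gen P) {L : ℝ} {S : Finset HP} (hg : Ghost P S)
    (hl : ell S = L) : NTouch P Q L S := by
  obtain ⟨_, h₀, s₀, f₀, t₀, l₀, hmin⟩ := hgho P gP S hg
  refine ⟨⟨h₀, s₀, f₀, by rw [l₀, hl], t₀.ge⟩, ?_⟩
  rintro ⟨g, h', hs', hm', hl', ht'⟩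
  obtain ⟨_, _, h, sh, fh, th, hh⟩ := hg
  have h1 := hh h' hs' ht'
  have h2 := hmin h sh fh th
  linarith only [hl, hl', h1, h2]

theorem swap_isA {i j k : HP} {L c c' : ℝ} (h : IsA i j k L c c') : IsA k j i L c' c := by
  have hv : ∀ s t : HP, vx s t = vx t s := by
    intro s t
    unfold vx
    have : (dt s.1 t.1 : ℂ) = -(dt t.1 s.1 : ℂ) := by
      rw [← Complex.ofReal_neg]; congr 1; simp [dt]; ring
    rw [this, div_neg, ← neg_div]; congr 1; ring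
  have hip : ∀ z w : ℂ, ip z w = ip w z := by intro z w; simp [ip]; ring
  refine ⟨h.uk, h.uj, h.ui, ?_, ?_, h.pos', h.pos, h.lt', h.lt, ?_, ?_, ?_, ?_⟩
  · rw [hip]; exact h.jk
  · rw [hip]; exact h.ij
  · have := h.or
    have e1 : dt k.1 j.1 = -dt j.1 k.1 := by simp [dt]; ring
    have e2 : dt j.1 i.1 = -dt i.1 j.1 := by simp [dt]; ring
    rw [e1, e2]; linarith only [this]
  · have := h.len
    unfold eA at this ⊢
    rw [hv k j, hv j i, norm_sub_rev]; exact this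
  · rw [hv k j]; exact h.in₂
  · rw [hv j i]; exact h.in₁

theorem swap_isB {i j q : HP} {L c a b : ℝ} (h : IsB i j q L c a b) : IsB j i q L c b a := by
  have hv : ∀ s t : HP, vx s t = vx t s := by
    intro s t
    unfold vx
    have : (dt s.1 t.1 : ℂ) = -(dt t.1 s.1 : ℂ) := by
      rw [← Complex.ofReal_neg]; congr 1; simp [dt]; ring
    rw [this, div_neg, ← neg_div]; congr 1; ring
  have hip : ∀ z w : ℂ, ip z w = ip w z := by intro z w; simp [ip]; ring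
  refine ⟨h.uj, h.ui, h.uq, ?_, h.jq, h.iq, h.lt, h.ltb, h.lta, h.negb, h.nega, ?_⟩
  · rw [hip]; exact h.ij
  · rw [hv j i]; exact h.len

/-- a congruence of the triples of two unmatched bodies is impossible -/
theorem cong_absurd {P Q : Finset HP} {L : ℝ} (okP : Ok P Q L) {h h' : ℂ → ℝ} (hu : Unm P Q h)
    (hl : lam h = L) (hf' : Fits Q h') {g : Iso2} (hg : mb g h = h')
    (hS : ∀ s ∈ touch P h, mv g s ∈ Q) : False := by
  rcases okP h hu.1 hl.le with h1 | ⟨_, h1⟩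
  · exact hu.2 h1
  · exact h1 ⟨g, by rw [hg]; exact hf', hS⟩

include hact in
theorem vx_move {g : Iso2} {s t : HP} {v : ℂ} (hs : ip s.1 v = s.2) (ht : ip t.1 v = t.2)
    (h : |ip s.1 t.1| < 1) (us : ‖s.1‖ = 1) (ut : ‖t.1‖ = 1) : g v = vx (mv g s) (mv g t) := by
  obtain ⟨a1, a2, a3, a4, a5, a6, a7, a8, a9, a10, _⟩ := hact
  have k1 := a6 g v s
  have k2 := a6 g v t
  have k3 := a8 g s t
  have k4 := a10 g s
  have k5 := a10 g t
  rw [hs, sub_self, sub_eq_zero] at k1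
  rw [ht, sub_self, sub_eq_zero] at k2
  rw [us] at k4
  rw [ut] at k5
  generalize mv g s = s' at *
  generalize mv g t = t' at *
  generalize g v = x at *
  have hdet : dt s'.1 t'.1 ≠ 0 := by
    intro h0
    have e1 : ip s'.1 t'.1 ^ 2 + dt s'.1 t'.1 ^ 2 = ‖s'.1‖ ^ 2 * ‖t'.1‖ ^ 2 := by
      rw [← Complex.normSq_eq_norm_sq, ← Complex.normSq_eq_norm_sq]
      simp [ip, dt, Complex.normSq_apply]; ring
    rw [h0, k4, k5, k3] at e1
    have e2 : ip s.1 t.1 ^ 2 < 1 := by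
      rw [← sq_abs]; nlinarith only [h, abs_nonneg (ip s.1 t.1)]
    linarith only [e1, e2]
  have hdc : (dt s'.1 t'.1 : ℂ) ≠ 0 := by exact_mod_cast hdet
  unfold vx
  rw [eq_div_iff hdc, ← k1, ← k2]
  apply Complex.ext
  · simp [ip, dt]; ring
  · simp [ip, dt]; ring

include hact hcga htya in
theorem ne_AA {P Q : Finset HP} (gP : Gen P) (gQ : Gen Q) {L : ℝ} (okP : Ok P Q L)
    {h h' : ℂ → ℝ} (hu : Unm P Q h) (hl : lam h = L) (hu' : Unm Q P h')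
    {i j k v w i' j' k' v' w'} (hA : TypeA P h i j k v w) (hA' : TypeA Q h' i' j' k' v' w')
    {c c' : ℝ} (hI : IsA i j k L c c') (hI' : IsA i' j' k' L c c' ∨ IsA k' j' i' L c c') :
    False := by
  obtain ⟨h1, h2, _, _, _, _, _, _⟩ := htya P gP.pg gP.g1 _ _ _ _ _ _ hA
  obtain ⟨k1, k2, _, k4, k5, _, _, _⟩ := htya Q gQ.pg gQ.g1 _ _ _ _ _ _ hA'
  have hcomm : (hf ![v', w'] : ℂ → ℝ) = hf ![w', v'] := by
    funext x
    unfold hf
    apply le_antisymm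
    · refine ciSup_le fun a => ?_
      fin_cases a
      · exact le_ciSup_of_le (Finite.bddAbove_range _) 1 (by simp)
      · exact le_ciSup_of_le (Finite.bddAbove_range _) 0 (by simp)
    · refine ciSup_le fun a => ?_
      fin_cases a
      · exact le_ciSup_of_le (Finite.bddAbove_range _) 1 (by simp)
      · exact le_ciSup_of_le (Finite.bddAbove_range _) 0 (by simp)
  have hv : ∀ s t : HP, vx s t = vx t s := by
    intro s t
    unfold vx
    have : (dt s.1 t.1 : ℂ) = -(dt t.1 s.1 : ℂ) := by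
      rw [← Complex.ofReal_neg]; congr 1; simp [dt]; ring
    rw [this, div_neg, ← neg_div]; congr 1; ring
  have mvw : ∀ g : Iso2, g v = vx (mv g i) (mv g j) ∧ g w = vx (mv g j) (mv g k) := fun g =>
    ⟨vx_move hact hA.vi.on₁ hA.vi.on₂ (gP.g1.lt1 _ hA.vi.mem₁ _ hA.vi.mem₂ hA.vi.ne)
      (gP.pg.unit _ hA.vi.mem₁) (gP.pg.unit _ hA.vi.mem₂),
     vx_move hact hA.wk.on₁ hA.wk.on₂ (gP.g1.lt1 _ hA.wk.mem₁ _ hA.wk.mem₂ hA.wk.ne)
      (gP.pg.unit _ hA.wk.mem₁) (gP.pg.unit _ hA.wk.mem₂)⟩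
  have mb2 : ∀ g : Iso2, mb g h = hf ![g v, g w] := by
    intro g
    rw [hA.body]
    have := hact.2.2.2.2.2.2.2.2.2.2.2.2.1 g 1 ![v, w]
    rw [this]; congr 1; funext a; fin_cases a <;> rfl
  rcases hI' with hI' | hI'
  · obtain ⟨g, e1, e2, e3⟩ := hcga _ _ _ _ _ _ _ _ _ hI hI'
    refine cong_absurd okP hu hl hu'.1.fits (g := g) ?_ ?_
    · rw [mb2, hA'.body, (mvw g).1, (mvw g).2, e1, e2, e3, ← k4, ← k5]
    · rw [h2]; intro s hs
      simp only [Finset.mem_insert, Finset.mem_singleton] at hs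
      rcases hs with rfl | rfl | rfl
      · rw [e1]; exact k1.1
      · rw [e2]; exact k1.2.1
      · rw [e3]; exact k1.2.2.1
  · obtain ⟨g, e1, e2, e3⟩ := hcga _ _ _ _ _ _ _ _ _ hI hI'
    refine cong_absurd okP hu hl hu'.1.fits (g := g) ?_ ?_
    · rw [mb2, hA'.body, (mvw g).1, (mvw g).2, e1, e2, e3, hv k' j', hv j' i', ← k4, ← k5, hcomm]
    · rw [h2]; intro s hs
      simp only [Finset.mem_insert, Finset.mem_singleton] at hs
      rcases hs with rfl | rfl | rfl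
      · rw [e1]; exact k1.2.2.1
      · rw [e2]; exact k1.2.1
      · rw [e3]; exact k1.1

include hact hcgb htyb in
theorem ne_BB {P Q : Finset HP} (gP : Gen P) (gQ : Gen Q) {L : ℝ} (okP : Ok P Q L)
    {h h' : ℂ → ℝ} (hu : Unm P Q h) (hl : lam h = L) (hu' : Unm Q P h') (hl' : lam h' = L)
    {i j q v d i' j' q' v' d'} (hB : TypeB P h i j q v d) (hB' : TypeB Q h' i' j' q' v' d')
    {c a b : ℝ} (hI : IsB i j q L c a b) (hI' : IsB i' j' q' L c a b ∨ IsB j' i' q' L c a b) :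
    False := by
  obtain ⟨h1, h2, _, _, h5, _, _⟩ := htyb P gP.pg gP.g1 _ _ _ _ _ _ hB
  obtain ⟨k1, k2, _, k4, k5, _, _⟩ := htyb Q gQ.pg gQ.g1 _ _ _ _ _ _ hB'
  have hdd : d = d' := by linarith
  have hv : ∀ s t : HP, vx s t = vx t s := by
    intro s t
    unfold vx
    have : (dt s.1 t.1 : ℂ) = -(dt t.1 s.1 : ℂ) := by
      rw [← Complex.ofReal_neg]; congr 1; simp [dt]; ring
    rw [this, div_neg, ← neg_div]; congr 1; ring
  have mvv : ∀ g : Iso2, g v = vx (mv g i) (mv g j) := fun g =>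
    vx_move hact hB.vi.on₁ hB.vi.on₂ (gP.g1.lt1 _ hB.vi.mem₁ _ hB.vi.mem₂ hB.vi.ne)
      (gP.pg.unit _ hB.vi.mem₁) (gP.pg.unit _ hB.vi.mem₂)
  have mb2 : ∀ g : Iso2, mb g h = hf ![g v, g v + (d : ℂ) * (mv g q).1] := by
    intro g
    rw [hB.body]
    have := hact.2.2.2.2.2.2.2.2.2.2.2.2.1 g 1 ![v, v + (d : ℂ) * q.1]
    rw [this]; congr 1; funext a
    fin_cases a
    · rfl
    · show g (v + (d : ℂ) * q.1) = g v + (d : ℂ) * (mv g q).1
      have e1 : g (v + (d : ℂ) * q.1) = g ((d • q.1) +ᵥ v) := by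
        congr 1; simp [add_comm]
      rw [e1, AffineIsometryEquiv.map_vadd]
      have e2 := map_smul g.linearIsometryEquiv d q.1
      simp only [Complex.real_smul] at e2
      simp [mv, add_comm, e2]
  rcases hI' with hI' | hI'
  · obtain ⟨g, e1, e2, e3⟩ := hcgb _ _ _ _ _ _ _ _ _ _ hI hI'
    refine cong_absurd okP hu hl hu'.1.fits (g := g) ?_ ?_
    · rw [mb2, hB'.body, mvv g, e1, e2, e3, ← k4, hdd]
    · rw [h2]; intro s hs
      simp only [Finset.mem_insert, Finset.mem_singleton] at hs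
      rcases hs with rfl | rfl | rfl
      · rw [e1]; exact k1.1
      · rw [e2]; exact k1.2.1
      · rw [e3]; exact k1.2.2.1
  · obtain ⟨g, e1, e2, e3⟩ := hcgb _ _ _ _ _ _ _ _ _ _ hI hI'
    refine cong_absurd okP hu hl hu'.1.fits (g := g) ?_ ?_
    · rw [mb2, hB'.body, mvv g, e1, e2, e3, hv j' i', ← k4, hdd]
    · rw [h2]; intro s hs
      simp only [Finset.mem_insert, Finset.mem_singleton] at hs
      rcases hs with rfl | rfl | rfl
      · rw [e1]; exact k1.2.1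
      · rw [e2]; exact k1.1
      · rw [e3]; exact k1.2.2.1

include hact hlx hgho hcga hcgb htya htyb in
theorem it_ne {P Q : Finset HP} (gP : Gen P) (gQ : Gen Q) {L : ℝ} (okP : Ok P Q L)
    (okQ : Ok Q P L)
    (clP : ∀ h, Unm P Q h → lam h = L →
      (∃ i j k v w, TypeA P h i j k v w) ∨ (∃ i j q v d, TypeB P h i j q v d))
    (clQ : ∀ h, Unm Q P h → lam h = L →
      (∃ i j k v w, TypeA Q h i j k v w) ∨ (∃ i j q v d, TypeB Q h i j q v d))
    (hlev : (∃ h, Unm P Q h ∧ lam h = L) ∨ (∃ h, Unm Q P h ∧ lam h = L) ∨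
      (∃ S, Ghost P S ∧ ell S = L ∧ ¬ ∃ S', Ghost Q S' ∧ ell S' = L) ∨
      (∃ S, Ghost Q S ∧ ell S = L ∧ ¬ ∃ S', Ghost P S' ∧ ell S' = L))
    {N N' : Finset (Finset HP)}
    (hN : ∀ S, S ∈ N ↔ S ⊆ P ∧ S.card = 3 ∧ NTouch P Q L S)
    (hN' : ∀ S, S ∈ N' ↔ S ⊆ Q ∧ S.card = 3 ∧ NTouch Q P L S)
    {it it' : Item} (h : ItP P Q L N it) (h' : ItP Q P L N' it') : ItemNe it it' := by
  cases it <;> cases it'
  case none.none =>
    rcases hlev with ⟨h₁, hu, hl⟩ | ⟨h₁, hu, hl⟩ | ⟨S, hS, hl, _⟩ | ⟨S, hS, hl, _⟩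
    · obtain ⟨S, s1, s2, s3, s4⟩ := unm_N hlx htya htyb gP gQ okP okQ clP hu hl
      have := h S ((hN S).2 ⟨s1, s2, s3⟩)
      exact s4 ⟨this.acute, this.alt⟩
    · obtain ⟨S, s1, s2, s3, s4⟩ := unm_N hlx htya htyb gQ gP okQ okP clQ hu hl
      have := h' S ((hN' S).2 ⟨s1, s2, s3⟩)
      exact s4 ⟨this.acute, this.alt⟩
    · have := h S ((hN S).2 ⟨hS.1, hS.2.1, ghost_N hgho gP hS hl⟩)
      have := this.lt
      linarith
    · have := h' S ((hN' S).2 ⟨hS.1, hS.2.1, ghost_N hgho gQ hS hl⟩)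
      have := this.lt
      linarith
  case gh.gh =>
    obtain ⟨S₀, hS₀, hoth, hg, hc, ha, hl₀, halt⟩ := h
    obtain ⟨S₀', hS₀', hoth', hg', hc', ha', hl₀', halt'⟩ := h'
    rcases hlev with ⟨h₁, hu, hl⟩ | ⟨h₁, hu, hl⟩ | ⟨S, hS, hl, hno⟩ | ⟨S, hS, hl, hno⟩
    · obtain ⟨S, s1, s2, s3, s4⟩ := unm_N hlx htya htyb gP gQ okP okQ clP hu hl
      by_cases he : S = S₀
      · subst he; exact s4 ⟨ha, halt⟩
      · have := hoth S ((hN S).2 ⟨s1, s2, s3⟩) he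
        exact s4 ⟨this.acute, this.alt⟩
    · obtain ⟨S, s1, s2, s3, s4⟩ := unm_N hlx htya htyb gQ gP okQ okP clQ hu hl
      by_cases he : S = S₀'
      · subst he; exact s4 ⟨ha', halt'⟩
      · have := hoth' S ((hN' S).2 ⟨s1, s2, s3⟩) he
        exact s4 ⟨this.acute, this.alt⟩
    · exact hno ⟨S₀', hg', hl₀'⟩
    · exact hno ⟨S₀, hg, hl₀⟩
  case A.A c c' d d' =>
    obtain ⟨S₀, hS₀, hoth, h₁, i, j, k, v, w, hu, hl, hA, hSe, hc, hc'⟩ := h
    obtain ⟨S₀', hS₀', hoth', h₁', i', j', k', v', w', hu', hl', hA', hSe', hd, hd'⟩ := h'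
    obtain ⟨_, _, _, _, _, e1, _, I1⟩ := htya P gP.pg gP.g1 _ _ _ _ _ _ hA
    obtain ⟨_, _, _, _, _, e2, _, I2⟩ := htya Q gQ.pg gQ.g1 _ _ _ _ _ _ hA'
    rw [← e1, hl, ← hc, ← hc'] at I1
    rw [← e2, hl', ← hd, ← hd'] at I2
    rintro (⟨rfl, rfl⟩ | ⟨rfl, rfl⟩)
    · exact ne_AA hact hcga htya gP gQ okP hu hl hu' hA hA' I1 (Or.inl I2)
    · exact ne_AA hact hcga htya gP gQ okP hu hl hu' hA hA' I1 (Or.inr (swap_isA I2))
  case B.B c a b c' a' b' =>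
    obtain ⟨S₀, hS₀, hoth, h₁, i, j, q, v, d, hu, hl, hB, hSe, _, hc, ha, hb⟩ := h
    obtain ⟨S₀', hS₀', hoth', h₁', i', j', q', v', d', hu', hl', hB', hSe', _, hc', ha', hb'⟩ := h'
    obtain ⟨_, _, _, _, _, e1, I1⟩ := htyb P gP.pg gP.g1 _ _ _ _ _ _ hB
    obtain ⟨_, _, _, _, _, e2, I2⟩ := htyb Q gQ.pg gQ.g1 _ _ _ _ _ _ hB'
    rw [← e1, hl, ← hc, ← ha, ← hb] at I1
    rw [← e2, hl', ← hc', ← ha', ← hb'] at I2
    rintro ⟨rfl, ⟨rfl, rfl⟩ | ⟨rfl, rfl⟩⟩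
    · exact ne_BB hact hcgb htyb gP gQ okP hu hl hu' hl' hB hB' I1 (Or.inl I2)
    · exact ne_BB hact hcgb htyb gP gQ okP hu hl hu' hl' hB hB' I1 (Or.inr (swap_isB I2))
  all_goals trivial

include hact hlam hmsy hell hgho in
/-- every old ghost has a partner -/
theorem old_sub {P Q : Finset HP} (gP : Gen P) (gQ : Gen Q) {L : ℝ} (ghP : GhP P Q L)
    {N N' : Finset (Finset HP)}
    (hN : ∀ S, S ∈ N ↔ S ⊆ P ∧ S.card = 3 ∧ NTouch P Q L S)
    (hN' : ∀ S, S ∈ N' ↔ S ⊆ Q ∧ S.card = 3 ∧ NTouch Q P L S)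
    (hc : ∀ S ∈ N, NCase P Q L S) : OldSet N L ⊆ OldSet N' L := by
  rintro l ⟨S, hS, hac, hlt, rfl⟩
  obtain ⟨s1, s2, s3⟩ := (hN S).1 hS
  have hgh : Ghost P S := by
    rcases hc S hS with ⟨h, _⟩ | ⟨h, _⟩ | ⟨h, i, j, k, v, w, _, hl, hA, rfl⟩ |
      ⟨h, i, j, q, v, d, _, hl, hB, rfl, h1 | h1⟩
    · exact h
    · exact h
    · exfalso
      have := hac i (by simp) j (by simp) hA.vi.ne
      have := hA.obt
      linarith
    · exfalso
      have := hac i (by simp) j (by simp) hB.vi.ne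
      linarith
    · exact h1.1
  obtain ⟨S', hS', hl'⟩ := ghP S hgh hlt
  obtain ⟨ac', h₀, s₀, f₀, t₀, l₀, _⟩ := hgho Q gQ S' hS'
  refine ⟨S', (hN' S').2 ⟨hS'.1, hS'.2.1, ⟨h₀, s₀, f₀, ?_, t₀.ge⟩, ?_⟩, ac', ?_, hl'⟩
  · rw [l₀, hl']; exact hlt.le
  · rintro ⟨g', h', hs', hm', hle', ht'⟩
    obtain ⟨k1, k2, k3⟩ := mtouch_move hact hlam hmsy hs' hm' hle' ht'
    have k4 := (hell.2.2.2 g' S' hS'.2.1 (fun s hs => gQ.pg.unit s (hS'.1 hs)) ac').1
    have k5 : S'.image (mv g') = S :=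
      ell_inj hell gP k2 s1 (k3.trans hS'.2.1) s2 (k4.trans hl')
    rw [k5] at k1
    exact s3.2 k1
  · rw [hl']; exact hlt

end Main

theorem geo (hact : ActStatement) (hlam : LamStatement) (huni : UniStatement)
    (hmsy : MsyStatement) (hlx : LxStatement) (hell : EllStatement) (hgho : GhoStatement)
    (hexi : ExiStatement) (hunt : UntStatement) (hevt : EvtStatement) (hevn : EvnStatement)
    (htam : TamStatement) (hncl : NclStatement) (hcga : CgaStatement) (hcgb : CgbStatement)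
    (htya : TyaStatement) (htyb : TybStatement) (hlevS : LevStatement) : GeoStatement := by
  classical
  intro P Q gP gQ h4 hne
  obtain ⟨L, L0, aP, aQ, ghP, ghQ, hlev⟩ := hlevS P Q gP gQ h4 hne
  obtain ⟨okP, okQ, clP⟩ := htam P Q gP gQ L aP aQ ghP ghQ
  obtain ⟨_, _, clQ⟩ := htam Q P gQ gP L aQ aP ghQ ghP
  set M := (P.powersetCard 3).filter (MTouch P Q L) with hM
  set N := (P.powersetCard 3).filter (NTouch P Q L) with hN
  set N' := (Q.powersetCard 3).filter (NTouch Q P L) with hN'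
  have memM : ∀ S, S ∈ M ↔ S ⊆ P ∧ S.card = 3 ∧ MTouch P Q L S := fun S => by
    rw [hM, Finset.mem_filter, Finset.mem_powersetCard, and_assoc]
  have memN : ∀ S, S ∈ N ↔ S ⊆ P ∧ S.card = 3 ∧ NTouch P Q L S := fun S => by
    rw [hN, Finset.mem_filter, Finset.mem_powersetCard, and_assoc]
  have memN' : ∀ S, S ∈ N' ↔ S ⊆ Q ∧ S.card = 3 ∧ NTouch Q P L S := fun S => by
    rw [hN', Finset.mem_filter, Finset.mem_powersetCard, and_assoc]
  have hγ : ∃ γ : Finset HP → Iso2, ∀ S ∈ M, ∃ h, Special P h ∧ Mat P Q (γ S) h ∧ lam h ≤ L ∧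
      S ⊆ touch P h := by
    have : ∀ S, ∃ g : Iso2, S ∈ M → ∃ h, Special P h ∧ Mat P Q g h ∧ lam h ≤ L ∧
        S ⊆ touch P h := by
      intro S
      by_cases hS : S ∈ M
      · obtain ⟨g, h⟩ := ((memM S).1 hS).2.2
        exact ⟨g, fun _ => h⟩
      · exact ⟨1, fun h => absurd h hS⟩
    choose γ hγ using this
    exact ⟨γ, hγ⟩
  obtain ⟨γ, hγ⟩ := hγ
  have moveM : ∀ S ∈ M, MTouch Q P L (S.image (mv (γ S))) ∧ S.image (mv (γ S)) ⊆ Q ∧
      (S.image (mv (γ S))).card = 3 := by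
    intro S hS
    obtain ⟨h, k1, k2, k3, k4⟩ := hγ S hS
    obtain ⟨m1, m2, m3⟩ := mtouch_move hact hlam hmsy k1 k2 k3 k4
    exact ⟨m1, m2, m3.trans ((memM S).1 hS).2.1⟩
  -- the radius for `P`
  obtain ⟨δ₁, p₁, H₁⟩ := exists_delta L (P.powersetCard 3) (fun S h =>
    (S ∈ M → (Ev P S h ↔ Ev Q (S.image (mv (γ S))) (mb (γ S) h))) ∧
    (S ∈ N → (Ev P S h ↔ EvL S h)) ∧ (S ∉ M → S ∉ N → ¬ Ev P S h)) (by
      intro S hS
      obtain ⟨hSP, hS3⟩ := Finset.mem_powersetCard.1 hS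
      by_cases h1 : S ∈ M
      · obtain ⟨h, k1, k2, k3, k4⟩ := hγ S h1
        obtain ⟨δ, hδ, H⟩ := hevt P Q gP gQ L okP okQ S (γ S) h hS3 k1.sub k2 k3 k4
        refine ⟨δ, hδ, fun h' s' l' => ⟨fun _ => H h' s' l', fun h2 => ?_, fun h2 => absurd h1 h2⟩⟩
        exact absurd ((memM S).1 h1).2.2 ((memN S).1 h2).2.2.2
      by_cases h2 : S ∈ N
      · obtain ⟨δ, hδ, H⟩ := delta_N hexi hevn gP okP hSP hS3 ((memN S).1 h2).2.2
        exact ⟨δ, hδ, fun h' s' l' => ⟨fun h => absurd h h1, fun _ => H h' s' l',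
          fun _ h => absurd h2 h⟩⟩
      · obtain ⟨δ, hδ, H⟩ := delta_out hlam hunt gP hSP hS3
          (tricho (P := P) (Q := Q) (fun h => h1 ((memM S).2 ⟨hSP, hS3, h⟩))
            (fun h => h2 ((memN S).2 ⟨hSP, hS3, h⟩)))
        exact ⟨δ, hδ, fun h' s' l' => ⟨fun h => absurd h h1, fun h => absurd h h2,
          fun _ _ => H h' s' l'⟩⟩)
  obtain ⟨δ₂, p₂, H₂⟩ := exists_delta L (Q.powersetCard 3) (fun S h =>
    (S ∈ N' → (Ev Q S h ↔ EvL S h)) ∧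
    ((∀ T ∈ M, T.image (mv (γ T)) ≠ S) → S ∉ N' → ¬ Ev Q S h)) (by
      intro S hS
      obtain ⟨hSQ, hS3⟩ := Finset.mem_powersetCard.1 hS
      by_cases h2 : S ∈ N'
      · obtain ⟨δ, hδ, H⟩ := delta_N hexi hevn gQ okQ hSQ hS3 ((memN' S).1 h2).2.2
        exact ⟨δ, hδ, fun h' s' l' => ⟨fun _ => H h' s' l', fun _ h => absurd h2 h⟩⟩
      by_cases h1 : MTouch Q P L S
      · refine ⟨1, one_pos, fun h' s' l' => ⟨fun h => absurd h h2, fun hno => ?_⟩⟩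
        exfalso
        obtain ⟨g', h, k1, k2, k3, k4⟩ := h1
        obtain ⟨m1, m2, m3⟩ := mtouch_move hact hlam hmsy k1 k2 k3 k4
        have hT : S.image (mv g') ∈ M := (memM _).2 ⟨m2, m3.trans hS3, m1⟩
        obtain ⟨h₁, n1, n2, n3, n4⟩ := hγ _ hT
        have e1 : (S.image (mv g')).image (mv g'⁻¹) = S := image_inv hact g' S
        have e2 : γ (S.image (mv g')) = g'⁻¹ := by
          refine (huni.2 P Q gP.pg gQ.pg gP.g1 gQ.g1 _ _).2 (S.image (mv g')) m2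
            (by rw [m3, hS3]) ?_ ?_
          · intro s hs; exact n2.mem s (n4 hs)
          · intro s hs
            have : mv g'⁻¹ s ∈ (S.image (mv g')).image (mv g'⁻¹) := Finset.mem_image_of_mem _ hs
            rw [e1] at this; exact hSQ this
        exact hno _ hT (by rw [e2]; exact e1)
      · obtain ⟨δ, hδ, H⟩ := delta_out hlam hunt gQ hSQ hS3
          (tricho (P := Q) (Q := P) h1 (fun h => h2 ((memN' S).2 ⟨hSQ, hS3, h⟩)))
        exact ⟨δ, hδ, fun h' s' l' => ⟨fun h => absurd h h2, fun _ _ => H h' s' l'⟩⟩)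
  have caseN : ∀ S ∈ N, NCase P Q L S := fun S hS => by
    obtain ⟨k1, k2, k3⟩ := (memN S).1 hS
    exact hncl P Q gP gQ L L0 aP aQ ghP ghQ S k1 k2 k3
  have caseN' : ∀ S ∈ N', NCase Q P L S := fun S hS => by
    obtain ⟨k1, k2, k3⟩ := (memN' S).1 hS
    exact hncl Q P gQ gP L L0 aQ aP ghQ ghP S k1 k2 k3
  obtain ⟨it, hit⟩ := it_exists (P := P) (Q := Q) hell htya htyb gP (N := N) fun S hS =>
    ⟨((memN S).1 hS).1, ((memN S).1 hS).2.1, caseN S hS⟩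
  obtain ⟨it', hit'⟩ := it_exists (P := Q) (Q := P) hell htya htyb gQ (N := N') fun S hS =>
    ⟨((memN' S).1 hS).1, ((memN' S).1 hS).2.1, caseN' S hS⟩
  refine ⟨L, min δ₁ δ₂, M, N, N', γ, it, it', ?_⟩
  have hδ : ∀ {h : ℂ → ℝ}, lam h < L + min δ₁ δ₂ → lam h < L + δ₁ ∧ lam h < L + δ₂ := by
    intro h hl
    exact ⟨hl.trans_le (by linarith [min_le_left δ₁ δ₂]),
      hl.trans_le (by linarith [min_le_right δ₁ δ₂])⟩
  refine ⟨L0, lt_min p₁ p₂, Finset.filter_subset _ _, Finset.filter_subset _ _,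
    Finset.filter_subset _ _, ?_, ?_, ?_, ?_, ?_, ?_, ?_, ?_, ?_, ?_, ?_, ?_, ?_, ?_, ?_⟩
  · rw [Finset.disjoint_left]
    intro S h1 h2
    exact ((memN S).1 h2).2.2.2 ((memM S).1 h1).2.2
  · intro S hS; exact (moveM S hS).2.1
  · intro S hS T hT he
    obtain ⟨h, k1, k2, k3, k4⟩ := hγ S hS
    obtain ⟨h', k1', k2', k3', k4'⟩ := hγ T hT
    have hSP := ((memM S).1 hS).1
    have hTP := ((memM T).1 hT).1
    have e1 : (γ S)⁻¹ = (γ T)⁻¹ := by
      refine (huni.2 Q P gQ.pg gP.pg gQ.g1 gP.g1 _ _).2 (S.image (mv (γ S)))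
        (moveM S hS).2.1 (moveM S hS).2.2.ge ?_ ?_
      · intro t ht
        obtain ⟨s, hs, rfl⟩ := Finset.mem_image.1 ht
        rw [mv_inv hact]; exact hSP hs
      · intro t ht
        rw [he] at ht
        obtain ⟨s, hs, rfl⟩ := Finset.mem_image.1 ht
        rw [mv_inv hact]; exact hTP hs
    have e2 : γ S = γ T := inv_injective e1
    rw [← image_inv hact (γ S) S, ← image_inv hact (γ T) T, he, e1]
  · intro S hS hS'
    exact ((memN' _).1 hS').2.2.2 (moveM S hS).1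
  · intro S hS h hs hl
    have hS' : S ∈ P.powersetCard 3 := (Finset.mem_filter.1 hS).1
    exact (H₁ S hS' h hs (hδ hl).1).1 hS
  · intro S hS h hs hl
    have hS' : S ∈ P.powersetCard 3 := (Finset.mem_filter.1 hS).1
    exact (H₁ S hS' h hs (hδ hl).1).2.1 hS
  · intro S hS h hs hl
    have hS' : S ∈ Q.powersetCard 3 := (Finset.mem_filter.1 hS).1
    exact (H₂ S hS' h hs (hδ hl).2).1 hS
  · intro S hS h1 h2 h hs hl
    exact (H₁ S hS h hs (hδ hl).1).2.2 h1 h2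
  · intro S hS h1 h2 h hs hl
    exact (H₂ S hS h hs (hδ hl).2).2 h1 h2
  · exact it_has htya htyb gP (fun S hS => ⟨((memN S).1 hS).1, ((memN S).1 hS).2.1⟩) hit
  · exact it_has htya htyb gQ (fun S hS => ⟨((memN' S).1 hS).1, ((memN' S).1 hS).2.1⟩) hit'
  · exact it_ne hact hlx hgho hcga hcgb htya htyb gP gQ okP okQ clP clQ hlev memN memN' hit hit'
  · exact Set.Subset.antisymm
      (old_sub hact hlam hmsy hell hgho gP gQ ghP memN memN' caseN)
      (old_sub hact hlam hmsy hell hgho gQ gP ghQ memN' memN caseN')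
  · intro S hS T hT _ _ he
    obtain ⟨s1, s2, _⟩ := (memN S).1 hS
    obtain ⟨t1, t2, _⟩ := (memN T).1 hT
    exact ell_inj hell gP s1 t1 s2 t2 he
  · intro S hS T hT _ _ he
    obtain ⟨s1, s2, _⟩ := (memN' S).1 hS
    obtain ⟨t1, t2, _⟩ := (memN' T).1 hT
    exact ell_inj hell gQ s1 t1 s2 t2 he

end Pool.Agent.AEU.H25
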