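import Pool.Agent.Helper35_AEU.DefsMain
import Pool.Agent.Helper13_Fine.Phi
import Pool.Agent.Helper13_Fine.Law2

/-!
helper25, AEU (MP_5b0138_an), III.A: the transform of the contribution of an edge with acute
exterior angles is the germ of type A, given the theorem EXACT of squad FINE for all acute angles.
-/

set_option autoImplicit false

namespace Pool.Agent.AEU.H25

open MeasureTheory Complex Filter Topology ProbabilityTheory Pool.Agent.H16Iso Pool.Agent.H62T
open Pool.Agent.H16F Pool.Agent.H16F.H13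

/-- EXACT of squad FINE for all acute exterior angles -/
def ExactAll : Prop :=
  ∀ β β' : ℝ, 0 < β → β < Real.pi / 2 → 0 < β' → β' < Real.pi / 2 → ∀ ε : ℝ, 0 < ε → ε < 1 →
    ∃ C : ℝ, ∀ a : ℝ, 1 ≤ a →
      |(∫ t in Set.Ioi (0 : ℝ), Real.exp (-(a ^ 2 * t))
          * (Phi β β' (1 / Real.sqrt t) / (4 * Real.pi * t))) - tau β β' a|
        ≤ C * Real.exp (-(4 * (1 - ε) * a))

theorem dt_mul_exp {z : ℂ} (hz : ‖z‖ = 1) (a b : ℝ) :
    dt (z * Complex.exp (a * I)) (z * Complex.exp (b * I)) = Real.sin (b - a) := by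
  have h1 : z.re * z.re + z.im * z.im = 1 := by
    have := Complex.normSq_apply z
    rw [Complex.normSq_eq_norm_sq, hz] at this
    linarith
  unfold dt
  simp only [Complex.mul_re, Complex.mul_im, Complex.exp_ofReal_mul_I_re,
    Complex.exp_ofReal_mul_I_im]
  rw [Real.sin_sub]
  linear_combination (Real.sin b * Real.cos a - Real.cos b * Real.sin a) * h1

theorem EZ_eq {z : ℂ} {β β' l t : ℝ} (hz : ‖z‖ = 1) (hβ : 0 < β) (hβ2 : β < Real.pi / 2)
    (hβ' : 0 < β') (hβ'2 : β' < Real.pi / 2) (ht : 0 < t) :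
    EZ (z * exp (-β * I)) z (z * exp (β' * I)) (Real.sin β * Real.sin β' * l) t
      = t * Phi β β' (l / Real.sqrt t) := by
  have hs1 : 0 < Real.sin β := Real.sin_pos_of_pos_of_lt_pi hβ (by linarith [Real.pi_pos])
  have hs2 : 0 < Real.sin β' := Real.sin_pos_of_pos_of_lt_pi hβ' (by linarith [Real.pi_pos])
  have hs3 : 0 < Real.sin (β + β') := Real.sin_pos_of_pos_of_lt_pi (by linarith) (by linarith)
  have hst : 0 < Real.sqrt t := Real.sqrt_pos.2 ht
  have hst2 : Real.sqrt t ^ 2 = t := Real.sq_sqrt ht.le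
  have d12 : dt (z * exp (-β * I)) z = Real.sin β := by
    have h := dt_mul_exp hz (-β) 0
    simp only [ofReal_neg, ofReal_zero, zero_mul, Complex.exp_zero, mul_one, sub_neg_eq_add,
      zero_add] at h
    exact h
  have d23 : dt z (z * exp (β' * I)) = Real.sin β' := by
    have h := dt_mul_exp hz 0 β'
    simp only [ofReal_zero, zero_mul, Complex.exp_zero, mul_one, sub_zero] at h
    exact h
  have d31 : dt (z * exp (β' * I)) (z * exp (-β * I)) = -Real.sin (β + β') := by
    have h := dt_mul_exp hz β' (-β)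
    rw [show -β - β' = -(β + β') by ring, Real.sin_neg] at h
    simpa only [ofReal_neg] using h
  obtain ⟨g, hg, hg2⟩ := (law2.1 z hz)
  have key : ∀ ω, ZZ (z * exp (-β * I)) z (z * exp (β' * I)) (Real.sin β * Real.sin β' * l)
      (fun u => Real.sqrt t * hs ω u) = t * (cf β β' * max (Yl β β' (g ω) - l / Real.sqrt t) 0 ^ 2) := by
    intro ω
    unfold ZZ DD pr
    rw [d12, d23, d31]
    have hY : Real.sin β * Real.sin β' * l - (Real.sin β' * (Real.sqrt t * hs ω (z * exp (-β * I)))
        + -Real.sin (β + β') * (Real.sqrt t * hs ω z)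
        + Real.sin β * (Real.sqrt t * hs ω (z * exp (β' * I))))
        = -(Real.sin β * Real.sin β' * Real.sqrt t * (Yl β β' (g ω) - l / Real.sqrt t)) := by
      unfold Yl
      rw [hg2, hg2, hg2, mul_one, Real.sin_add]
      field_simp
      ring
    rw [hY]
    have hpos : 0 < Real.sin β * Real.sin β' * Real.sqrt t := by positivity
    have hm : min (-(Real.sin β * Real.sin β' * Real.sqrt t * (Yl β β' (g ω) - l / Real.sqrt t))) 0
        = -(Real.sin β * Real.sin β' * Real.sqrt t * max (Yl β β' (g ω) - l / Real.sqrt t) 0) := by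
      rcases le_total (Yl β β' (g ω) - l / Real.sqrt t) 0 with h | h
      · rw [max_eq_right h, min_eq_right]
        · ring
        · linarith only [mul_nonneg_of_nonpos_of_nonpos (a := -(Real.sin β * Real.sin β' * Real.sqrt t))
            (by linarith) h]
      · rw [max_eq_left h, min_eq_left]
        have := mul_nonneg hpos.le h
        linarith
    rw [hm]
    unfold cf
    have h2 : (-(Real.sin β * Real.sin β' * Real.sqrt t * max (Yl β β' (g ω) - l / Real.sqrt t) 0)) ^ 2
        = (Real.sin β * Real.sin β') ^ 2 * t * max (Yl β β' (g ω) - l / Real.sqrt t) 0 ^ 2 := by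
      rw [neg_sq, mul_pow, mul_pow (Real.sin β * Real.sin β'), hst2]
    rw [h2]
    field_simp
  unfold EZ
  simp only [key]
  rw [integral_const_mul]
  congr 1
  have h2 := integral_map (φ := g) (μ := PP) hg.measurable.aemeasurable
    (f := fun ω => cf β β' * max (Yl β β' ω - l / Real.sqrt t) 0 ^ 2)
    ((meas_mx β β' _).const_mul _).aestronglyMeasurable
  rw [hg.map_eq] at h2
  unfold Phi
  rw [h2]

/-- **III.A** -/
theorem germA_of_exact (h : ExactAll) : GermAStmt := by
  intro z β β' l hz hβ hβ2 hβ' hβ'2 hl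
  obtain ⟨C, hC⟩ := h β β' hβ hβ2 hβ' hβ'2 (1 / 4) (by norm_num) (by norm_num)
  refine ⟨C, l, hl, ?_⟩
  filter_upwards [eventually_ge_atTop (1 / l)] with κ hκ
  have hκ0 : 0 < κ := lt_of_lt_of_le (by positivity) hκ
  have ha : 1 ≤ κ * l := by
    rw [div_le_iff₀ hl] at hκ
    exact hκ
  have hp := Real.pi_pos
  have e1 : germA l β β' κ = tau β β' (κ * l) := by
    have ne1 : ∀ {x : ℝ}, 0 < x → x < Real.pi / 2 → Real.cos (2 * nu x * Real.pi) ≠ 1 := by
      intro x hx hx2 h
      have h1 : 0 < Real.pi - x := by linarith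
      have e : 2 * nu x = Real.pi / (Real.pi - x) := by unfold nu; field_simp
      have g1 : 1 < 2 * nu x := by rw [e, lt_div_iff₀ h1]; linarith
      have g2 : 2 * nu x < 2 := by rw [e, div_lt_iff₀ h1]; linarith
      have h2 : Real.cos (2 * nu x * Real.pi - 2 * Real.pi) = 1 := by rw [Real.cos_sub_two_pi, h]
      rw [Real.cos_eq_one_iff_of_lt_of_lt] at h2
      · nlinarith only [h2, hβ, g2, hβ2]
      · nlinarith only [hβ2, hβ, g1]
      · nlinarith only [hβ2, hβ, g2]
    have e : ∀ {x : ℝ}, x < Real.pi / 2 → 2 * nu x = Real.pi / (Real.pi - x) := by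
      intro x hx
      have h1 : Real.pi - x ≠ 0 := by linarith
      unfold nu
      field_simp
    rw [H12.tau_eq (by positivity) (ne1 hβ hβ2) (ne1 hβ' hβ'2), e hβ2, e hβ'2]
    unfold germA
    ring
  have e2 : Lap (EZ (z * exp (-β * I)) z (z * exp (β' * I)) (Real.sin β * Real.sin β' * l)) κ
      = ∫ t in Set.Ioi (0 : ℝ), Real.exp (-((κ * l) ^ 2 * t))
          * (Phi β β' (1 / Real.sqrt t) / (4 * Real.pi * t)) := by
    unfold Lap
    have h1 : ∀ t ∈ Set.Ioi (0 : ℝ), Real.exp (-(κ ^ 2 * t)) *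
        EZ (z * exp (-β * I)) z (z * exp (β' * I)) (Real.sin β * Real.sin β' * l) t
          / (4 * Real.pi * t ^ 2)
        = Real.exp (-(κ ^ 2 * t)) * (Phi β β' (l / Real.sqrt t) / (4 * Real.pi * t)) := by
      intro t ht
      rw [Set.mem_Ioi] at ht
      rw [EZ_eq hz hβ hβ2 hβ' hβ'2 ht]
      field_simp
    rw [setIntegral_congr_fun measurableSet_Ioi h1]
    have h2 := integral_comp_mul_left_Ioi
      (fun t => Real.exp (-(κ ^ 2 * t)) * (Phi β β' (l / Real.sqrt t) / (4 * Real.pi * t))) 0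
      (b := l ^ 2) (by positivity)
    rw [mul_zero, smul_eq_mul] at h2
    have h3 : ∀ t ∈ Set.Ioi (0 : ℝ), Real.exp (-((κ * l) ^ 2 * t))
          * (Phi β β' (1 / Real.sqrt t) / (4 * Real.pi * t))
        = l ^ 2 * (Real.exp (-(κ ^ 2 * (l ^ 2 * t)))
          * (Phi β β' (l / Real.sqrt (l ^ 2 * t)) / (4 * Real.pi * (l ^ 2 * t)))) := by
      intro t ht
      rw [Set.mem_Ioi] at ht
      have hst : 0 < Real.sqrt t := Real.sqrt_pos.2 ht
      rw [Real.sqrt_mul (by positivity), Real.sqrt_sq hl.le,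
        show l / (l * Real.sqrt t) = 1 / Real.sqrt t by field_simp,
        show (κ * l) ^ 2 * t = κ ^ 2 * (l ^ 2 * t) by ring]
      field_simp
    rw [setIntegral_congr_fun measurableSet_Ioi h3, integral_const_mul, h2, ← mul_assoc,
      mul_inv_cancel₀ (by positivity), one_mul]
  simp only [e1, e2]
  refine (hC _ ha).trans (le_of_eq ?_)
  congr 2
  ring

end Pool.Agent.AEU.H25
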