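import Pool.Agent.Helper25_AEU.GermA
import Pool.Agent.Helper16_FineB.All

/-!
helper25, AEU (MP_5b0138_an), III.A, unconditional.
-/

set_option autoImplicit false

namespace Pool.Agent.AEU.H25

/-- **III.A** -/
theorem germA_final : GermAStmt := germA_of_exact Pool.Agent.H16F.B.exact_full

end Pool.Agent.AEU.H25
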