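import Pool.Agent.Helper25_AEU.Stmt

/-!
Squad AEU, Part II, modules LC and LX.
-/

namespace Pool.Agent.AEU.H25

open MeasureTheory Complex Filter Topology Pool.Agent.H62T Pool.Agent.AEU
open Pool.Agent.H16F (Sublin)

theorem mem_touch {P : Finset HP} {h : ℂ → ℝ} {s : HP} :
    s ∈ touch P h ↔ s ∈ P ∧ h s.1 = s.2 := by
  unfold touch; simp

theorem touch_sub (P : Finset HP) (h : ℂ → ℝ) : touch P h ⊆ P := fun _ hs => (mem_touch.1 hs).1

/-- continuity of the path at finitely many directions -/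
theorem path_near (P : Finset HP) (h₀ h₁ : ℂ → ℝ) (τ ε : ℝ) (hε : 0 < ε) :
    ∀ᶠ τ' in 𝓝 τ, ∀ s ∈ P, |mix τ' h₀ h₁ s.1 - mix τ h₀ h₁ s.1| < ε := by
  have : ∀ s ∈ P, ∀ᶠ τ' in 𝓝 τ, |mix τ' h₀ h₁ s.1 - mix τ h₀ h₁ s.1| < ε := by
    intro s _
    have hc : Continuous fun τ' : ℝ => |mix τ' h₀ h₁ s.1 - mix τ h₀ h₁ s.1| := by
      unfold mix; fun_prop
    have h0 : |mix τ h₀ h₁ s.1 - mix τ h₀ h₁ s.1| < ε := by simpa using hε
    exact (hc.tendsto τ).eventually (gt_mem_nhds h0)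
  exact (Finset.eventually_all P).2 this

/-- the path is matched near a matched parameter -/
theorem mat_near (hact : ActStatement) (hopn : OpnStatement) {P Q : Finset HP} {g : Iso2}
    {h₀ h₁ : ℂ → ℝ} {τ : ℝ} (hm : Mat P Q g (mix τ h₀ h₁)) :
    ∀ᶠ τ' in 𝓝 τ, Fits P (mix τ' h₀ h₁) → Mat P Q g (mix τ' h₀ h₁) := by
  obtain ⟨ε, hε, h⟩ := hopn P Q g _ hm
  filter_upwards [path_near P h₀ h₁ τ ε hε, path_near Q (mb g h₀) (mb g h₁) τ ε hε] with τ' h1 h2 hf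
  refine h _ hf h1 ?_
  intro s hs
  have hmix := hact.2.2.2.2.2.2.2.2.2.2.2.1
  rw [hmix, hmix]
  exact h2 s hs

/-- closedness of `Fits` along the path -/
theorem closed_fits (Q : Finset HP) (h₀ h₁ : ℂ → ℝ) :
    IsClosed {τ : ℝ | Fits Q (mix τ h₀ h₁)} := by
  have : {τ : ℝ | Fits Q (mix τ h₀ h₁)} = ⋂ s ∈ Q, {τ : ℝ | mix τ h₀ h₁ s.1 ≤ s.2} := by
    ext τ; simp [Fits]
  rw [this]
  refine isClosed_biInter fun s _ => ?_
  exact isClosed_le (by unfold mix; fun_prop) continuous_const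

theorem lc (hact : ActStatement) (hmix : MixStatement) (hopn : OpnStatement)
    (huni : UniStatement) : LcStatement := by
  intro P Q hP hQ g1P g1Q L hall h₀ h sub₀ sub f₀ f l₀ l c3 hv
  set c := touch P h₀ ∩ touch P h with hc
  have hcP : c ⊆ P := fun s hs => touch_sub P h₀ (Finset.mem_inter.1 hs).1
  obtain ⟨hm1, hm2, _⟩ := hmix P
  -- all bodies of the path are special and short
  have key : ∀ τ : ℝ, 0 ≤ τ → τ < 1 → Fits P (mix τ h₀ h) ∧ c ⊆ touch P (mix τ h₀ h) ∧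
      Special P (mix τ h₀ h) ∧ lam (mix τ h₀ h) < L := by
    intro τ h0 h1
    obtain ⟨m1, m2, m3, m4⟩ := hm1 h₀ h sub₀ sub τ h0 h1.le
    obtain ⟨m5, m6, _⟩ := m4 f₀ f
    refine ⟨m5, m6, ⟨m1, m5, c3.trans (Finset.card_le_card m6), ?_⟩, ?_⟩
    · rcases hv with ⟨v, hv1, hv2, hv3⟩ | h4
      · exact Or.inl ⟨v, hv1, m3 v hv2 hv3⟩
      · exact Or.inr (h4.trans (Finset.card_le_card m6))
    · rw [m2]
      nlinarith
  have hmat : ∀ τ : ℝ, 0 ≤ τ → τ < 1 → ∃ g, Mat P Q g (mix τ h₀ h) := fun τ h0 h1 =>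
    hall _ (key τ h0 h1).2.2.1 (key τ h0 h1).2.2.2
  obtain ⟨g, hg⟩ := hmat 0 le_rfl one_pos
  -- uniqueness on `c`
  have huq : ∀ τ : ℝ, 0 ≤ τ → τ < 1 → ∀ g₁ g₂, Mat P Q g₁ (mix τ h₀ h) →
      (∀ s ∈ c, mv g₂ s ∈ Q) → g₁ = g₂ := by
    intro τ h0 h1 g₁ g₂ k1 k2
    exact ((huni.2 P Q hP hQ g1P g1Q g₁ g₂).2 c hcP c3
      (fun s hs => k1.mem s ((key τ h0 h1).2.1 hs)) k2)
  have hgc : ∀ s ∈ c, mv g s ∈ Q := fun s hs => hg.mem s ((key 0 le_rfl one_pos).2.1 hs)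
  -- all parameters below one
  have hall' : ∀ b : ℝ, 0 ≤ b → b < 1 → Set.Icc 0 b ⊆ {τ | Mat P Q g (mix τ h₀ h)} := by
    intro b hb0 hb1
    refine IsClosed.Icc_subset_of_forall_exists_gt ?_ hg ?_
    · -- closed
      rw [← closure_subset_iff_isClosed]
      intro τ hτ
      have hτI : τ ∈ Set.Icc (0 : ℝ) b := by
        have := closure_mono Set.inter_subset_right hτ
        rwa [isClosed_Icc.closure_eq] at this
      refine ⟨?_, hτI⟩
      obtain ⟨g₁, hg₁⟩ := hmat τ hτI.1 (hτI.2.trans_lt hb1)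
      have hnear := mat_near hact hopn hg₁
      obtain ⟨τ', hτ', hτ''⟩ := mem_closure_iff_frequently.1 hτ |>.and_eventually hnear |>.exists
      have h1 : Mat P Q g₁ (mix τ' h₀ h) := hτ'' (key τ' hτ'.2.1 (hτ'.2.2.trans_lt hb1)).1
      have h2 : g₁ = g := huq τ' hτ'.2.1 (hτ'.2.2.trans_lt hb1) g₁ g h1 hgc
      rw [← h2]; exact hg₁
    · intro τ hτ y hy
      have hnear := mat_near hact hopn hτ.1
      have h1 : ∀ᶠ τ' in 𝓝[>] τ, Fits P (mix τ' h₀ h) → Mat P Q g (mix τ' h₀ h) :=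
        hnear.filter_mono nhdsWithin_le_nhds
      have h2 : ∀ᶠ τ' in 𝓝[>] τ, τ' ∈ Set.Ioc τ (min y b) :=
        Ioc_mem_nhdsGT (lt_min hy hτ.2.2)
      obtain ⟨τ', k1, k2⟩ := (h1.and h2).exists
      refine ⟨τ', ?_, k2.1, k2.2.trans (min_le_left _ _)⟩
      exact k1 (key τ' (hτ.2.1.trans k2.1.le) ((k2.2.trans (min_le_right _ _)).trans_lt hb1)).1
  refine ⟨g, ?_, ?_, hgc⟩
  · have := hg; rwa [(hm2 h₀ h).1] at this
  · have hmx := hact.2.2.2.2.2.2.2.2.2.2.2.1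
    have hcl := closed_fits Q (mb g h₀) (mb g h)
    have h1 : (1 : ℝ) ∈ {τ : ℝ | Fits Q (mix τ (mb g h₀) (mb g h))} := by
      have hsub : Set.Ico (0 : ℝ) 1 ⊆ {τ : ℝ | Fits Q (mix τ (mb g h₀) (mb g h))} := by
        intro τ hτ
        have := (hall' τ hτ.1 hτ.2 ⟨hτ.1, le_rfl⟩ : Mat P Q g (mix τ h₀ h)).fits'
        rwa [hmx] at this
      have := hcl.closure_subset_iff.2 hsub
      rw [closure_Ico (by norm_num)] at this
      exact this ⟨zero_le_one, le_rfl⟩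
    have h2 : Fits Q (mix 1 (mb g h₀) (mb g h)) := h1
    obtain ⟨_, k2, _⟩ := hmix Q
    rwa [(k2 _ _).2] at h2

/-- one half of the closedness step -/
theorem lx_step (huni : UniStatement) {P Q : Finset HP} (hP : Pg P) (hQ : Pg Q) (g1P : G1 P)
    (g1Q : G1 Q) {L : ℝ} (ok : Ok P Q L) {S : Finset HP} {g : Iso2} {h : ℂ → ℝ}
    (hS : S.card = 3) (hSt : S ⊆ touch P h) (hgS : ∀ s ∈ S, mv g s ∈ Q) (hf : Fits Q (mb g h))
    (hl : lam h ≤ L) (hsp : Special P h) : Mat P Q g h := by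
  have hSP : S ⊆ P := hSt.trans (touch_sub P h)
  rcases ok h hsp hl with ⟨g₁, h1⟩ | ⟨h3, hno⟩
  · have : g₁ = g := (huni.2 P Q hP hQ g1P g1Q g₁ g).2 S hSP hS.ge
      (fun s hs => h1.mem s (hSt hs)) hgS
    rw [← this]; exact h1
  · exfalso
    have hT : S = touch P h := Finset.eq_of_subset_of_card_le hSt (by rw [h3, hS])
    exact hno ⟨g, hf, fun s hs => hgS s (by rw [hT]; exact hs)⟩

theorem lx (hact : ActStatement) (hlam : LamStatement) (hmix : MixStatement)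
    (hopn : OpnStatement) (huni : UniStatement) (hmsy : MsyStatement) : LxStatement := by
  intro P Q hP hQ g1P g1Q L okP okQ S g h₀ h hS hS₀ hSh sub₀ sub hm f l₀ l
  obtain ⟨a1, a2, a3, a4, a5, a6, a7, a8, a9, a10, a11, hmx, _⟩ := hact
  have hact' : ActStatement := ⟨a1, a2, a3, a4, a5, a6, a7, a8, a9, a10, a11, hmx, by assumption⟩
  have hinv : ∀ g : Iso2, ∀ s, mv g⁻¹ (mv g s) = s := fun g s => by
    rw [← a1, inv_mul_cancel, a2]
  have hinvb : ∀ g : Iso2, ∀ h, mb g⁻¹ (mb g h) = h := fun g h => by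
    rw [← a3, inv_mul_cancel, a4]
  obtain ⟨hm1, hm2, _⟩ := hmix P
  have hSP : S ⊆ P := hSh.trans (touch_sub P h)
  have hgS : ∀ s ∈ S, mv g s ∈ Q := fun s hs => hm.mem s (hS₀ hs)
  have key : ∀ τ : ℝ, 0 ≤ τ → τ ≤ 1 → Sublin (mix τ h₀ h) ∧ Fits P (mix τ h₀ h) ∧
      S ⊆ touch P (mix τ h₀ h) ∧ lam (mix τ h₀ h) ≤ L := by
    intro τ h0 h1
    obtain ⟨m1, m2, m3, m4⟩ := hm1 h₀ h sub₀ sub τ h0 h1
    obtain ⟨m5, m6, _⟩ := m4 hm.fits f
    refine ⟨m1, m5, fun s hs => m6 (Finset.mem_inter.2 ⟨hS₀ hs, hSh hs⟩), ?_⟩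
    rw [m2]; nlinarith
  have hinj : Function.Injective (mv g) := fun s t hst => by
    have := congrArg (mv g⁻¹) hst
    rwa [hinv, hinv] at this
  -- a body of the path which fits on both sides is matched
  have step : ∀ τ : ℝ, 0 ≤ τ → τ ≤ 1 → Fits Q (mb g (mix τ h₀ h)) →
      Mat P Q g (mix τ h₀ h) := by
    intro τ h0 h1 hf
    obtain ⟨k1, k2, k3, k4⟩ := key τ h0 h1
    by_cases hsp : Special P (mix τ h₀ h)
    · exact lx_step huni hP hQ g1P g1Q okP hS k3 hgS hf k4 hsp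
    have hT : touch P (mix τ h₀ h) = S := by
      have h4 : ¬ 4 ≤ (touch P (mix τ h₀ h)).card := fun h4 =>
        hsp ⟨k1, k2, by omega, Or.inr h4⟩
      exact (Finset.eq_of_subset_of_card_le k3 (by omega)).symm
    have hS'T : S.image (mv g) ⊆ touch Q (mb g (mix τ h₀ h)) := by
      intro t ht
      obtain ⟨s, hs, rfl⟩ := Finset.mem_image.1 ht
      rw [mem_touch]
      refine ⟨hgS s hs, ?_⟩
      have := a5 g (mix τ h₀ h) s
      have h2 := (mem_touch.1 (k3 hs)).2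
      linarith
    have hS'c : (S.image (mv g)).card = 3 := by
      rw [Finset.card_image_of_injective _ hinj, hS]
    by_cases hsq : Special Q (mb g (mix τ h₀ h))
    · have h2 : Mat Q P g⁻¹ (mb g (mix τ h₀ h)) := by
        refine lx_step huni hQ hP g1Q g1P okQ hS'c hS'T ?_ ?_ ?_ hsq
        · intro t ht
          obtain ⟨s, hs, rfl⟩ := Finset.mem_image.1 ht
          rw [hinv]; exact hSP hs
        · rw [hinvb]; exact k2
        · rw [hlam.2.2.2 g _ k1]; exact k4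
      have h3 := (hmsy Q P g⁻¹ _ h2).1
      rwa [inv_inv, hinvb] at h3
    · have hT' : touch Q (mb g (mix τ h₀ h)) = S.image (mv g) := by
        have h4 : ¬ 4 ≤ (touch Q (mb g (mix τ h₀ h))).card := fun h4 =>
          hsq ⟨a11 g _ k1, hf, by omega, Or.inr h4⟩
        exact (Finset.eq_of_subset_of_card_le hS'T (by omega)).symm
      refine ⟨k2, hf, ?_, ?_⟩
      · rw [hT]; exact hgS
      · rw [hT']
        intro t ht
        obtain ⟨s, hs, rfl⟩ := Finset.mem_image.1 ht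
        rw [hinv]; exact hSP hs
  have hall : Set.Icc (0 : ℝ) 1 ⊆ {τ | Mat P Q g (mix τ h₀ h)} := by
    refine IsClosed.Icc_subset_of_forall_exists_gt ?_ ?_ ?_
    · rw [← closure_subset_iff_isClosed]
      intro τ hτ
      have hτI : τ ∈ Set.Icc (0 : ℝ) 1 := by
        have := closure_mono Set.inter_subset_right hτ
        rwa [isClosed_Icc.closure_eq] at this
      refine ⟨step τ hτI.1 hτI.2 ?_, hτI⟩
      have hcl := closed_fits Q (mb g h₀) (mb g h)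
      have hsub : {τ | Mat P Q g (mix τ h₀ h)} ∩ Set.Icc (0 : ℝ) 1 ⊆
          {τ : ℝ | Fits Q (mix τ (mb g h₀) (mb g h))} := by
        intro τ' hτ'
        have := (hτ'.1 : Mat P Q g (mix τ' h₀ h)).fits'
        rwa [hmx] at this
      have := hcl.closure_subset_iff.2 hsub hτ
      rw [hmx]; exact this
    · show Mat P Q g (mix 0 h₀ h)
      rw [(hm2 h₀ h).1]; exact hm
    · intro τ hτ y hy
      have hnear := mat_near hact' hopn hτ.1
      have h1 : ∀ᶠ τ' in 𝓝[>] τ, Fits P (mix τ' h₀ h) → Mat P Q g (mix τ' h₀ h) :=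
        hnear.filter_mono nhdsWithin_le_nhds
      have h2 : ∀ᶠ τ' in 𝓝[>] τ, τ' ∈ Set.Ioc τ (min y 1) :=
        Ioc_mem_nhdsGT (lt_min hy hτ.2.2)
      obtain ⟨τ', k1, k2⟩ := (h1.and h2).exists
      refine ⟨τ', ?_, k2.1, k2.2.trans (min_le_left _ _)⟩
      exact k1 (key τ' (hτ.2.1.trans k2.1.le) (k2.2.trans (min_le_right _ _))).2.1
  have := hall ⟨zero_le_one, le_rfl⟩
  have h2 : Mat P Q g (mix 1 h₀ h) := this
  rwa [(hm2 h₀ h).2] at h2

end Pool.Agent.AEU.H25
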